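import Mathlib

set_option autoImplicit false

/-!
Local densities for the sifting problem `n (n + h)`.
-/

namespace Pool.Agent.Lib_helper92

open Finset ArithmeticFunction

noncomputable section

/-- The number of residues `n` modulo `d` with `d ∣ n (n + h)`. -/
def rho (h d : ℕ) : ℕ := ((range d).filter (fun n => d ∣ n * (n + h))).card

lemma rho_zero (h : ℕ) : rho h 0 = 0 := by simp [rho]

lemma rho_le (h d : ℕ) : rho h d ≤ d := by
  have := Finset.card_filter_le (range d) (fun n => d ∣ n * (n + h))
  rwa [card_range] at this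

lemma one_le_rho (h : ℕ) {d : ℕ} (hd : 0 < d) : 1 ≤ rho h d := by
  apply Finset.card_pos.2
  exact ⟨0, by simp [hd]⟩

lemma rho_one (h : ℕ) : rho h 1 = 1 :=
  le_antisymm (rho_le h 1) (one_le_rho h one_pos)

/-- The predicate only depends on `n` modulo `d`. -/
lemma dvd_iff_of_modEq {h d a b : ℕ} (hab : a ≡ b [MOD d]) :
    d ∣ a * (a + h) ↔ d ∣ b * (b + h) := by
  have h1 : a * (a + h) ≡ b * (b + h) [MOD d] := Nat.ModEq.mul hab (hab.add_right h)
  exact h1.dvd_iff dvd_rfl

lemma rho_mul (h : ℕ) {a b : ℕ} (hab : Nat.Coprime a b) : rho h (a * b) = rho h a * rho h b := by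
  rcases Nat.eq_zero_or_pos a with rfl | ha
  · simp [rho_zero]
  rcases Nat.eq_zero_or_pos b with rfl | hb
  · simp [rho_zero]
  rw [rho, rho, rho, ← Finset.card_product]
  apply Finset.card_bij (fun x _ => (x % a, x % b))
  · intro x hx
    rw [mem_filter, mem_range] at hx
    rw [mem_product, mem_filter, mem_filter, mem_range, mem_range]
    refine ⟨⟨Nat.mod_lt _ ha, ?_⟩, Nat.mod_lt _ hb, ?_⟩
    · exact (dvd_iff_of_modEq (Nat.mod_modEq x a)).2 ((dvd_mul_right a b).trans hx.2)
    · exact (dvd_iff_of_modEq (Nat.mod_modEq x b)).2 ((dvd_mul_left b a).trans hx.2)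
  · intro x hx y hy hxy
    rw [mem_filter, mem_range] at hx hy
    rw [Prod.mk.injEq] at hxy
    have h1 : x ≡ y [MOD a * b] :=
      (Nat.modEq_and_modEq_iff_modEq_mul hab).1 ⟨hxy.1, hxy.2⟩
    exact Nat.ModEq.eq_of_lt_of_lt h1 hx.1 hy.1
  · rintro ⟨u, v⟩ huv
    rw [mem_product, mem_filter, mem_filter, mem_range, mem_range] at huv
    obtain ⟨⟨hu1, hu2⟩, hv1, hv2⟩ := huv
    obtain ⟨x, hx1, hx2⟩ := Nat.chineseRemainder hab u v
    refine ⟨x % (a * b), ?_, ?_⟩
    · rw [mem_filter, mem_range]
      refine ⟨Nat.mod_lt _ (Nat.mul_pos ha hb), ?_⟩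
      rw [dvd_iff_of_modEq (Nat.mod_modEq x (a * b))]
      exact hab.mul_dvd_of_dvd_of_dvd ((dvd_iff_of_modEq hx1).2 hu2) ((dvd_iff_of_modEq hx2).2 hv2)
    · have e1 : x % (a * b) % a = u := by
        rw [Nat.mod_mul_right_mod]
        have h1 : x % a = u % a := hx1
        rw [h1]
        exact Nat.mod_eq_of_lt hu1
      have e2 : x % (a * b) % b = v := by
        rw [Nat.mod_mul_left_mod]
        have h1 : x % b = v % b := hx2
        rw [h1]
        exact Nat.mod_eq_of_lt hv1
      rw [e1, e2]

/-- The density `rho h d / d` as an arithmetic function. -/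
def nuF (h : ℕ) : ArithmeticFunction ℝ := ⟨fun d => (rho h d : ℝ) / d, by simp⟩

lemma nuF_apply (h d : ℕ) : nuF h d = (rho h d : ℝ) / d := rfl

lemma nuF_mult (h : ℕ) : (nuF h).IsMultiplicative := by
  constructor
  · simp [nuF_apply, rho_one]
  · intro m n hmn
    rw [nuF_apply, nuF_apply, nuF_apply, rho_mul h hmn]
    push_cast
    rw [mul_div_mul_comm]

/-- Counting in an interval. -/
lemma count_bounds (h d M q r : ℕ) (hr : r ≤ d) :
    q * rho h d ≤ ((Ico M (M + (d * q + r))).filter (fun n => d ∣ n * (n + h))).card ∧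
    ((Ico M (M + (d * q + r))).filter (fun n => d ∣ n * (n + h))).card ≤ (q + 1) * rho h d := by
  classical
  have hper : Function.Periodic (fun n => d ∣ n * (n + h)) d := by
    intro n
    apply propext
    exact dvd_iff_of_modEq (by simp [Nat.ModEq])
  have hfull : ∀ N, ((Ico N (N + d)).filter (fun n => d ∣ n * (n + h))).card = rho h d := by
    intro N
    rw [Nat.filter_Ico_card_eq_of_periodic N d _ hper, Nat.count_eq_card_filter_range, rho]
  have hq : ∀ q : ℕ, ((Ico M (M + d * q)).filter (fun n => d ∣ n * (n + h))).card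
      = q * rho h d := by
    intro q
    induction q with
    | zero => simp
    | succ q ih =>
      have e : Ico M (M + d * (q + 1)) = Ico M (M + d * q) ∪ Ico (M + d * q) (M + d * q + d) := by
        rw [Finset.Ico_union_Ico_eq_Ico (by omega) (by omega)]
        congr 1
        ring
      rw [e, filter_union, card_union_of_disjoint, ih, hfull]
      · ring
      · apply Finset.disjoint_filter_filter
        exact Finset.Ico_disjoint_Ico_consecutive _ _ _
  constructor
  · rw [← hq q]
    apply Finset.card_le_card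
    apply Finset.filter_subset_filter
    apply Finset.Ico_subset_Ico le_rfl
    omega
  · rw [← hq (q + 1)]
    apply Finset.card_le_card
    apply Finset.filter_subset_filter
    apply Finset.Ico_subset_Ico le_rfl
    rw [Nat.mul_succ]
    omega

lemma abs_count_sub_le (h d M H : ℕ) (hd : 0 < d) :
    |(((Ico M (M + H)).filter (fun n => d ∣ n * (n + h))).card : ℝ) - nuF h d * H| ≤ rho h d := by
  obtain ⟨h1, h2⟩ := count_bounds h d M (H / d) (H % d) (Nat.mod_lt _ hd).le
  rw [Nat.div_add_mod] at h1 h2
  have hd' : (0 : ℝ) < d := by exact_mod_cast hd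
  have e1 : ((H / d : ℕ) : ℝ) * d ≤ H := by exact_mod_cast Nat.div_mul_le_self H d
  have e2 : (H : ℝ) ≤ ((H / d : ℕ) + 1 : ℝ) * d := by
    have : H ≤ (H / d + 1) * d := by
      have := Nat.lt_div_mul_add (a := H) hd
      rw [Nat.add_mul, one_mul]
      exact this.le
    exact_mod_cast this
  have h1' : ((H / d : ℕ) : ℝ) * rho h d ≤
      ((Ico M (M + H)).filter (fun n => d ∣ n * (n + h))).card := by exact_mod_cast h1
  have h2' : (((Ico M (M + H)).filter (fun n => d ∣ n * (n + h))).card : ℝ) ≤
      ((H / d : ℕ) + 1 : ℝ) * rho h d := by exact_mod_cast h2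
  have hr : (0 : ℝ) ≤ rho h d := Nat.cast_nonneg _
  have e3 : nuF h d * H = (rho h d : ℝ) * (H / d) := by rw [nuF_apply]; ring
  have e4 : ((H / d : ℕ) : ℝ) ≤ (H : ℝ) / d := by rw [le_div_iff₀ hd']; exact e1
  have e5 : (H : ℝ) / d ≤ (H / d : ℕ) + 1 := by rw [div_le_iff₀ hd']; exact e2
  rw [e3, abs_le]
  constructor
  · nlinarith
  · nlinarith

/-! ### Values at primes -/

lemma rho_prime_lt {h p : ℕ} (hp : p.Prime) (heven : Even h) : rho h p < p := by
  have : ∃ n ∈ range p, ¬ p ∣ n * (n + h) := by
    rcases hp.eq_two_or_odd' with rfl | hodd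
    · refine ⟨1, by simp, ?_⟩
      rw [one_mul, ← even_iff_two_dvd, Nat.not_even_iff_odd]
      exact Odd.add_even odd_one heven
    · have hp3 : 3 ≤ p := by
        have h1 := hp.two_le
        have : p ≠ 2 := by
          rintro rfl
          exact absurd hodd (by decide)
        omega
      by_cases h1 : p ∣ 1 + h
      · refine ⟨2, by simp; omega, ?_⟩
        intro h2
        rcases (Nat.Prime.dvd_mul hp).1 h2 with h3 | h3
        · have := Nat.le_of_dvd (by norm_num) h3
          omega
        · have h4 : p ∣ (2 + h) - (1 + h) := Nat.dvd_sub h3 h1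
          have h5 : (2 + h) - (1 + h) = 1 := by omega
          rw [h5] at h4
          exact hp.one_lt.ne' (Nat.dvd_one.1 h4)
      · refine ⟨1, by simp; omega, ?_⟩
        rw [one_mul]
        exact h1
  obtain ⟨n, hn1, hn2⟩ := this
  have h3 : (range p).filter (fun n => p ∣ n * (n + h)) ⊂ range p := by
    apply Finset.filter_ssubset.2
    exact ⟨n, hn1, hn2⟩
  have := Finset.card_lt_card h3
  rwa [card_range] at this

lemma two_le_rho_prime {h p : ℕ} (hp : p.Prime) (hph : ¬ p ∣ h) : 2 ≤ rho h p := by
  have hpos := hp.pos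
  have hmod : 0 < h % p := Nat.pos_of_ne_zero fun h0 => hph (Nat.dvd_of_mod_eq_zero h0)
  have hlt : h % p < p := Nat.mod_lt _ hpos
  have hsub : ({0, p - h % p} : Finset ℕ) ⊆ (range p).filter (fun n => p ∣ n * (n + h)) := by
    intro x hx
    rw [mem_insert, mem_singleton] at hx
    rw [mem_filter, mem_range]
    rcases hx with rfl | rfl
    · exact ⟨hpos, by simp⟩
    · refine ⟨by omega, ?_⟩
      apply Dvd.dvd.mul_left
      have e : p - h % p + h = p * (h / p + 1) := by
        have h1 := Nat.div_add_mod h p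
        have h2 : p * (h / p + 1) = p * (h / p) + p := by ring
        omega
      rw [e]
      exact dvd_mul_right _ _
  have hcard : ({0, p - h % p} : Finset ℕ).card = 2 := by
    apply Finset.card_pair
    omega
  rw [← hcard]
  exact Finset.card_le_card hsub

end

end Pool.Agent.Lib_helper92
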