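import Mathlib

set_option autoImplicit false

/-!
Lower bounds for sums of multiplicative functions over squarefree integers.
-/

namespace Pool.Agent.Lib_helper92

open Finset ArithmeticFunction
open scoped ArithmeticFunction.zeta

noncomputable section

/-- Grouping integers by their radical. -/
theorem sum_fiber_radical (z : ℕ) (f : ℕ → ℕ → ℝ) (g : ℕ → ℝ)
    (hf : ∀ p a, 0 ≤ f p a)
    (hfg : ∀ p, p.Prime → p ≤ z → ∑ a ∈ Icc 1 z, f p a ≤ g p) :
    ∑ m ∈ Icc 1 z, ∏ p ∈ m.primeFactors, f p (m.factorization p) ≤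
      ∑ l ∈ (Icc 1 z).filter Squarefree, ∏ p ∈ l.primeFactors, g p := by
  classical
  have hmaps : ∀ m ∈ Icc 1 z, (∏ p ∈ m.primeFactors, p) ∈ (Icc 1 z).filter Squarefree := by
    intro m hm
    rw [mem_Icc] at hm
    have hdvd : (∏ p ∈ m.primeFactors, p) ∣ m := Nat.prod_primeFactors_dvd m
    rw [mem_filter, mem_Icc]
    refine ⟨⟨?_, (Nat.le_of_dvd hm.1 hdvd).trans hm.2⟩, ?_⟩
    · exact Nat.pos_of_ne_zero (ne_zero_of_dvd_ne_zero (by omega) hdvd)
    · apply Finset.squarefree_prod_of_pairwise_isCoprime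
      · intro p hp q hq hpq
        rw [Function.onFun, ← Nat.coprime_iff_isRelPrime]
        exact (Nat.coprime_primes (Nat.prime_of_mem_primeFactors hp)
          (Nat.prime_of_mem_primeFactors hq)).2 hpq
      · intro p hp
        exact (Nat.prime_of_mem_primeFactors hp).prime.squarefree
  rw [← Finset.sum_fiberwise_of_maps_to hmaps]
  apply Finset.sum_le_sum
  intro l hl
  rw [mem_filter, mem_Icc] at hl
  have hfac : ∀ m : ℕ, (∏ p ∈ m.primeFactors, p) = l → m.primeFactors = l.primeFactors := by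
    intro m hm
    rw [← hm, Nat.primeFactors_prod]
    intro p hp
    exact Nat.prime_of_mem_primeFactors hp
  -- the injection
  let i : ℕ → (l.primeFactors → ℕ) := fun m p => m.factorization p
  let T : Finset ℕ := (Icc 1 z).filter (fun m => (∏ p ∈ m.primeFactors, p) = l)
  have hinj : Set.InjOn i (T : Set ℕ) := by
    intro m hm n hn hmn
    rw [mem_coe, mem_filter, mem_Icc] at hm hn
    apply Nat.eq_of_factorization_eq (by omega) (by omega)
    intro p
    by_cases hp : p ∈ l.primeFactors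
    · exact congrFun hmn ⟨p, hp⟩
    · have h1 : p ∉ m.primeFactors := by rwa [hfac m hm.2]
      have h2 : p ∉ n.primeFactors := by rwa [hfac n hn.2]
      rw [← Nat.support_factorization, Finsupp.notMem_support_iff] at h1 h2
      rw [h1, h2]
  calc ∑ m ∈ T, ∏ p ∈ m.primeFactors, f p (m.factorization p)
      = ∑ m ∈ T, ∏ p : l.primeFactors, f p (i m p) := by
        apply Finset.sum_congr rfl
        intro m hm
        rw [mem_filter, mem_Icc] at hm
        rw [hfac m hm.2, ← Finset.prod_coe_sort]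
    _ = ∑ x ∈ T.image i, ∏ p : l.primeFactors, f p (x p) := by
        rw [Finset.sum_image]
        exact hinj
    _ ≤ ∑ x ∈ Fintype.piFinset (fun _ : l.primeFactors => Icc 1 z),
          ∏ p : l.primeFactors, f p (x p) := by
        apply Finset.sum_le_sum_of_subset_of_nonneg
        · intro x hx
          rw [mem_image] at hx
          obtain ⟨m, hm, rfl⟩ := hx
          rw [mem_filter, mem_Icc] at hm
          rw [Fintype.mem_piFinset]
          intro p
          rw [mem_Icc]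
          have hp : (p : ℕ) ∈ m.primeFactors := by rw [hfac m hm.2]; exact p.2
          constructor
          · exact (Nat.prime_of_mem_primeFactors hp).factorization_pos_of_dvd (by omega)
              (Nat.dvd_of_mem_primeFactors hp)
          · exact (Nat.factorization_lt _ (by omega)).le.trans hm.1.2
        · intro x _ _
          exact Finset.prod_nonneg fun p _ => hf _ _
    _ = ∏ p : l.primeFactors, ∑ a ∈ Icc 1 z, f p a := by
        rw [Finset.prod_univ_sum]
    _ ≤ ∏ p : l.primeFactors, g p := by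
        apply Finset.prod_le_prod
        · intro p _
          exact Finset.sum_nonneg fun a _ => hf _ _
        · intro p _
          apply hfg p (Nat.prime_of_mem_primeFactors p.2)
          exact (Nat.le_of_dvd hl.1.1 (Nat.dvd_of_mem_primeFactors p.2)).trans hl.1.2
    _ = ∏ p ∈ l.primeFactors, g p := Finset.prod_coe_sort l.primeFactors g

/-- The indicator of integers coprime to `h`. -/
def chi (h : ℕ) : ArithmeticFunction ℝ :=
  ⟨fun n => if n ≠ 0 ∧ Nat.Coprime n h then 1 else 0, by simp⟩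

lemma chi_apply (h n : ℕ) : chi h n = if n ≠ 0 ∧ Nat.Coprime n h then 1 else 0 := rfl

lemma chi_nonneg (h n : ℕ) : 0 ≤ chi h n := by
  rw [chi_apply]; split_ifs <;> norm_num

lemma chi_mult (h : ℕ) : (chi h).IsMultiplicative := by
  constructor
  · simp [chi_apply]
  · intro m n _
    rw [chi_apply, chi_apply, chi_apply]
    by_cases h1 : m = 0
    · simp [h1]
    by_cases h2 : n = 0
    · simp [h2]
    have h5 : (m * n ≠ 0 ∧ Nat.Coprime (m * n) h) ↔ (Nat.Coprime m h ∧ Nat.Coprime n h) := by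
      rw [Nat.coprime_mul_iff_left]
      exact ⟨fun hx => hx.2, fun hx => ⟨Nat.mul_ne_zero h1 h2, hx⟩⟩
    simp only [h5]
    by_cases h3 : Nat.Coprime m h
    · by_cases h4 : Nat.Coprime n h
      · rw [if_pos ⟨h3, h4⟩, if_pos ⟨h1, h3⟩, if_pos ⟨h2, h4⟩, mul_one]
      · rw [if_neg (fun hx => h4 hx.2), if_neg (fun hx => h4 hx.2 : ¬ (n ≠ 0 ∧ Nat.Coprime n h)),
          mul_zero]
    · rw [if_neg (fun hx => h3 hx.1), if_neg (fun hx => h3 hx.2 : ¬ (m ≠ 0 ∧ Nat.Coprime m h)),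
        zero_mul]

/-- The Dirichlet convolution of one and `chi h`. -/
def zchi (h : ℕ) : ArithmeticFunction ℝ := (ζ : ArithmeticFunction ℝ) * chi h

lemma zchi_mult (h : ℕ) : (zchi h).IsMultiplicative :=
  isMultiplicative_zeta.natCast.mul (chi_mult h)

lemma zchi_apply (h n : ℕ) : zchi h n = ∑ d ∈ n.divisors, chi h d := by
  rw [zchi, coe_zeta_mul_apply]

lemma zchi_nonneg (h n : ℕ) : 0 ≤ zchi h n := by
  rw [zchi_apply]
  exact Finset.sum_nonneg fun d _ => chi_nonneg h d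

lemma zchi_prime_pow_of_dvd {h p a : ℕ} (hp : p.Prime) (hph : p ∣ h) : zchi h (p ^ a) = 1 := by
  rw [zchi_apply, Nat.divisors_prime_pow hp, Finset.sum_map]
  rw [Finset.sum_eq_single 0]
  · simp [chi_apply]
  · intro b _ hb
    simp only [Function.Embedding.coeFn_mk]
    rw [chi_apply, if_neg]
    rintro ⟨_, h2⟩
    have h3 : p ∣ Nat.gcd (p ^ b) h := Nat.dvd_gcd (dvd_pow_self p hb) hph
    rw [h2] at h3
    exact hp.one_lt.ne' (Nat.dvd_one.1 h3)
  · intro h0
    simp at h0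

lemma zchi_prime_pow_of_not_dvd {h p a : ℕ} (hp : p.Prime) (hph : ¬ p ∣ h) :
    zchi h (p ^ a) = a + 1 := by
  rw [zchi_apply, Nat.divisors_prime_pow hp, Finset.sum_map]
  have : ∀ b ∈ range (a + 1), chi h (p ^ b) = 1 := by
    intro b _
    rw [chi_apply, if_pos]
    exact ⟨pow_ne_zero _ hp.ne_zero, Nat.Coprime.pow_left _ ((hp.coprime_iff_not_dvd).2 hph)⟩
  simp only [Function.Embedding.coeFn_mk]
  rw [Finset.sum_congr rfl this]
  simp

/-- Truncated geometric sums. -/
lemma sum_geom_le {x : ℝ} (hx0 : 0 ≤ x) (hx1 : x < 1) (n : ℕ) :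
    ∑ a ∈ Icc 1 n, x ^ a ≤ x / (1 - x) := by
  have h1 : ∀ n : ℕ, ∑ a ∈ Icc 1 n, x ^ a = x * (1 - x ^ n) / (1 - x) := by
    intro n
    have hne : (1 - x) ≠ 0 := by linarith
    induction n with
    | zero => simp
    | succ n ih =>
      rw [Finset.sum_Icc_succ_top (by omega), ih]
      field_simp
      ring
  rw [h1 n]
  apply div_le_div_of_nonneg_right _ (by linarith)
  have := pow_nonneg hx0 n
  nlinarith

/-- Local comparison at primes dividing `h`. -/
lemma local_dvd {h p z : ℕ} (hp : p.Prime) (hph : p ∣ h) :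
    ∑ a ∈ Icc 1 z, zchi h (p ^ a) / (p : ℝ) ^ a ≤ 1 / ((p : ℝ) - 1) := by
  have hp1 : (1 : ℝ) < p := by exact_mod_cast hp.one_lt
  have h1 : ∀ a ∈ Icc 1 z, zchi h (p ^ a) / (p : ℝ) ^ a = ((p : ℝ)⁻¹) ^ a := by
    intro a _
    rw [zchi_prime_pow_of_dvd hp hph, inv_pow, one_div]
  rw [Finset.sum_congr rfl h1]
  refine (sum_geom_le (by positivity) (inv_lt_one_of_one_lt₀ hp1) z).trans (le_of_eq ?_)
  have : (p : ℝ) ≠ 0 := by positivity
  have : (p : ℝ) - 1 ≠ 0 := by linarith
  field_simp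

/-- Local comparison at primes not dividing `h`. -/
lemma local_not_dvd {h p z : ℕ} (hp : p.Prime) (hp3 : 3 ≤ p) (hph : ¬ p ∣ h) :
    ∑ a ∈ Icc 1 z, zchi h (p ^ a) / (p : ℝ) ^ a ≤ 2 / ((p : ℝ) - 2) := by
  have hp3' : (3 : ℝ) ≤ p := by exact_mod_cast hp3
  have h1 : ∀ a ∈ Icc 1 z, zchi h (p ^ a) / (p : ℝ) ^ a ≤ (2 / (p : ℝ)) ^ a := by
    intro a _
    rw [zchi_prime_pow_of_not_dvd hp hph, div_pow]
    apply div_le_div_of_nonneg_right _ (by positivity)
    have : a + 1 ≤ 2 ^ a := Nat.lt_two_pow_self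
    exact_mod_cast this
  refine (Finset.sum_le_sum h1).trans ?_
  have h2 : 2 / (p : ℝ) < 1 := by
    rw [div_lt_one (by positivity)]
    linarith
  refine (sum_geom_le (by positivity) h2 z).trans (le_of_eq ?_)
  have : (p : ℝ) ≠ 0 := by positivity
  have : (p : ℝ) - 2 ≠ 0 := by linarith
  field_simp

/-- `zchi h m / m` as a product over prime factors. -/
lemma zchi_div_eq_prod {h m : ℕ} (hm : m ≠ 0) :
    zchi h m / m = ∏ p ∈ m.primeFactors,
      (zchi h (p ^ m.factorization p) / (p : ℝ) ^ m.factorization p) := by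
  rw [Finset.prod_div_distrib]
  congr 1
  · rw [(zchi_mult h).multiplicative_factorization _ hm, Finsupp.prod, Nat.support_factorization]
  · conv_lhs => rw [← Nat.prod_factorization_pow_eq_self hm]
    rw [Finsupp.prod, Nat.support_factorization]
    push_cast
    rfl

/-- Product structure: a truncated double sum is at most the sum of `zchi h m / m`. -/
lemma prod_le_sum_zchi (h y z : ℕ) (hyz : y * y ≤ z) :
    (∑ u ∈ Icc 1 y, (1 : ℝ) / u) * (∑ v ∈ Icc 1 y, chi h v / v) ≤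
      ∑ m ∈ Icc 1 z, zchi h m / m := by
  classical
  rw [Finset.sum_mul_sum, ← Finset.sum_product']
  have hmaps : ∀ x ∈ Icc 1 y ×ˢ Icc 1 y, x.1 * x.2 ∈ Icc 1 z := by
    intro x hx
    rw [mem_product, mem_Icc, mem_Icc] at hx
    rw [mem_Icc]
    exact ⟨Nat.mul_pos hx.1.1 hx.2.1, (Nat.mul_le_mul hx.1.2 hx.2.2).trans hyz⟩
  rw [← Finset.sum_fiberwise_of_maps_to hmaps]
  apply Finset.sum_le_sum
  intro m hm
  rw [mem_Icc] at hm
  have hm0 : m ≠ 0 := by omega
  rw [zchi_apply, Finset.sum_div]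
  calc ∑ x ∈ (Icc 1 y ×ˢ Icc 1 y).filter (fun x => x.1 * x.2 = m),
        (1 : ℝ) / x.1 * (chi h x.2 / x.2)
      = ∑ x ∈ (Icc 1 y ×ˢ Icc 1 y).filter (fun x => x.1 * x.2 = m), chi h x.2 / m := by
        apply Finset.sum_congr rfl
        intro x hx
        rw [mem_filter, mem_product, mem_Icc, mem_Icc] at hx
        have e : (m : ℝ) = x.1 * x.2 := by rw [← hx.2]; push_cast; rfl
        rw [e]
        have h1 : (x.1 : ℝ) ≠ 0 := by
          have := hx.1.1.1
          positivity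
        have h2 : (x.2 : ℝ) ≠ 0 := by
          have := hx.1.2.1
          positivity
        field_simp
    _ = ∑ v ∈ ((Icc 1 y ×ˢ Icc 1 y).filter (fun x => x.1 * x.2 = m)).image Prod.snd,
          chi h v / m := by
        rw [Finset.sum_image]
        intro a ha b hb hab
        rw [mem_coe, mem_filter, mem_product, mem_Icc, mem_Icc] at ha hb
        have h1 : a.1 * a.2 = b.1 * a.2 := by
          rw [ha.2, hab, hb.2]
        have h2 : a.1 = b.1 := Nat.eq_of_mul_eq_mul_right (by omega) h1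
        exact Prod.ext h2 hab
    _ ≤ ∑ v ∈ m.divisors, chi h v / m := by
        apply Finset.sum_le_sum_of_subset_of_nonneg
        · intro v hv
          rw [mem_image] at hv
          obtain ⟨x, hx, rfl⟩ := hv
          rw [mem_filter] at hx
          rw [Nat.mem_divisors]
          exact ⟨⟨x.1, by rw [mul_comm]; exact hx.2.symm⟩, hm0⟩
        · intro v _ _
          exact div_nonneg (chi_nonneg h v) (Nat.cast_nonneg _)

/-- Every positive integer is `v * e * s^2` with `v` coprime to `h` and `e ∣ h`. -/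
lemma exists_decomp (h : ℕ) (m : ℕ) (hm : m ≠ 0) :
    ∃ v e s : ℕ, m = v * e * s ^ 2 ∧ Nat.Coprime v h ∧ e ∣ h := by
  induction m using Nat.strong_induction_on with
  | _ m ih =>
    by_cases hc : Nat.Coprime m h
    · exact ⟨m, 1, 1, by simp, hc, one_dvd _⟩
    · obtain ⟨p, hp, hpm, hph⟩ := Nat.Prime.not_coprime_iff_dvd.1 hc
      obtain ⟨m', rfl⟩ := hpm
      have hm' : m' ≠ 0 := right_ne_zero_of_mul hm
      obtain ⟨v, e, s, h1, h2, h3⟩ := ih m' (by
        have := hp.two_le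
        have h0 := Nat.pos_of_ne_zero hm'
        nlinarith) hm'
      by_cases hpe : p ∣ e
      · obtain ⟨e', rfl⟩ := hpe
        refine ⟨v, e', p * s, ?_, h2, (dvd_mul_left e' p).trans h3⟩
        rw [h1]; ring
      · refine ⟨v, p * e, s, ?_, h2, ?_⟩
        · rw [h1]; ring
        · exact Nat.Coprime.mul_dvd_of_dvd_of_dvd ((hp.coprime_iff_not_dvd).2 hpe) hph h3

/-- The factor `c(h) = 2 * sum_{e | h} 1/e`. -/
def cfac (h : ℕ) : ℝ := 2 * ∑ e ∈ h.divisors, (1 : ℝ) / e

lemma cfac_pos {h : ℕ} (hh : h ≠ 0) : 0 < cfac h := by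
  have h1 : (1 : ℝ) ≤ ∑ e ∈ h.divisors, (1 : ℝ) / e := by
    have := Finset.single_le_sum (f := fun e : ℕ => (1 : ℝ) / e) (s := h.divisors)
      (fun i _ => by positivity) (Nat.one_mem_divisors.2 hh)
    simpa using this
  rw [cfac]
  linarith

/-- The harmonic sum is at most `c(h)` times the harmonic sum over integers coprime to `h`. -/
lemma harmonic_le_cfac (h y : ℕ) (hh : h ≠ 0) :
    ∑ m ∈ Icc 1 y, (1 : ℝ) / m ≤ cfac h * ∑ v ∈ Icc 1 y, chi h v / v := by
  classical
  choose! v e s hdec using exists_decomp h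
  let t : ℕ → ℕ × ℕ × ℕ := fun m => (v m, e m, s m)
  have hpos : ∀ m, m ≠ 0 → v m ≠ 0 ∧ e m ≠ 0 ∧ s m ≠ 0 := by
    intro m hm
    have h1 := (hdec m hm).1
    refine ⟨?_, ?_, ?_⟩ <;> intro h0 <;> rw [h0] at h1 <;> apply hm <;> rw [h1] <;> simp
  have hval : ∀ m, m ≠ 0 → (1 : ℝ) / m = chi h (v m) / (v m) * (1 / (e m) * (1 / (s m) ^ 2)) := by
    intro m hm
    obtain ⟨h1, h2, h3⟩ := hpos m hm
    have hv : chi h (v m) = 1 := by
      rw [chi_apply, if_pos ⟨h1, (hdec m hm).2.1⟩]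
    have h4 : (m : ℝ) = v m * e m * (s m) ^ 2 := by
      exact_mod_cast (hdec m hm).1
    rw [hv, h4]
    have h1' : (v m : ℝ) ≠ 0 := by exact_mod_cast h1
    have h2' : (e m : ℝ) ≠ 0 := by exact_mod_cast h2
    have h3' : (s m : ℝ) ≠ 0 := by exact_mod_cast h3
    field_simp
  have hinj : Set.InjOn t (Icc 1 y : Finset ℕ) := by
    intro m hm n hn hmn
    rw [mem_coe, mem_Icc] at hm hn
    have h1 := (hdec m (by omega)).1
    have h2 := (hdec n (by omega)).1
    simp only [t, Prod.mk.injEq] at hmn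
    rw [h1, h2, hmn.1, hmn.2.1, hmn.2.2]
  have hmem : ∀ m ∈ Icc 1 y, t m ∈ Icc 1 y ×ˢ h.divisors ×ˢ Ioo 0 (y + 1) := by
    intro m hm
    rw [mem_Icc] at hm
    have hm0 : m ≠ 0 := by omega
    obtain ⟨h1, h2, h3⟩ := hpos m hm0
    have h4 := (hdec m hm0).1
    have h5 : v m ∣ m := ⟨e m * s m ^ 2, by rw [← mul_assoc]; exact h4⟩
    have h6 : s m ∣ m := ⟨v m * e m * s m, by rw [mul_comm (s m), mul_assoc, ← sq]; exact h4⟩
    have h7 := Nat.le_of_dvd (by omega) h5
    have h8 := Nat.le_of_dvd (by omega) h6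
    simp only [t, mem_product, mem_Icc, Nat.mem_divisors, mem_Ioo]
    exact ⟨⟨Nat.pos_of_ne_zero h1, h7.trans hm.2⟩, ⟨(hdec m hm0).2.2, hh⟩,
      Nat.pos_of_ne_zero h3, by omega⟩
  have hsq : ∑ i ∈ Ioo 0 (y + 1), (1 : ℝ) / (i : ℝ) ^ 2 ≤ 2 := by
    have := sum_Ioo_inv_sq_le (α := ℝ) 0 (y + 1)
    simpa using this
  calc ∑ m ∈ Icc 1 y, (1 : ℝ) / m
      = ∑ m ∈ Icc 1 y, (fun x : ℕ × ℕ × ℕ =>
          chi h x.1 / x.1 * (1 / (x.2.1 : ℝ) * (1 / (x.2.2 : ℝ) ^ 2))) (t m) := by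
        apply Finset.sum_congr rfl
        intro m hm
        rw [mem_Icc] at hm
        exact hval m (by omega)
    _ = ∑ x ∈ (Icc 1 y).image t,
          chi h x.1 / x.1 * (1 / (x.2.1 : ℝ) * (1 / (x.2.2 : ℝ) ^ 2)) := by
        rw [Finset.sum_image]
        exact hinj
    _ ≤ ∑ x ∈ Icc 1 y ×ˢ h.divisors ×ˢ Ioo 0 (y + 1),
          chi h x.1 / x.1 * (1 / (x.2.1 : ℝ) * (1 / (x.2.2 : ℝ) ^ 2)) := by
        apply Finset.sum_le_sum_of_subset_of_nonneg
        · intro x hx
          rw [mem_image] at hx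
          obtain ⟨m, hm, rfl⟩ := hx
          exact hmem m hm
        · intro x _ _
          have := chi_nonneg h x.1
          positivity
    _ = (∑ v ∈ Icc 1 y, chi h v / v) * ((∑ e ∈ h.divisors, (1 : ℝ) / e) *
          ∑ i ∈ Ioo 0 (y + 1), (1 : ℝ) / (i : ℝ) ^ 2) := by
        rw [Finset.sum_mul_sum, Finset.sum_mul_sum, Finset.sum_product]
        apply Finset.sum_congr rfl
        intro a _
        rw [Finset.sum_product]
        simp only [Finset.mul_sum]
    _ ≤ (∑ v ∈ Icc 1 y, chi h v / v) * ((∑ e ∈ h.divisors, (1 : ℝ) / e) * 2) := by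
        have h1 : 0 ≤ ∑ v ∈ Icc 1 y, chi h v / v :=
          Finset.sum_nonneg fun v _ => div_nonneg (chi_nonneg h v) (Nat.cast_nonneg _)
        have h2 : 0 ≤ ∑ e ∈ h.divisors, (1 : ℝ) / e :=
          Finset.sum_nonneg fun v _ => by positivity
        gcongr
    _ = cfac h * ∑ v ∈ Icc 1 y, chi h v / v := by
        rw [cfac]; ring

/-- Average of `c(h)`. -/
lemma sum_cfac_le (K : ℕ) : ∑ h ∈ Icc 1 K, cfac h ≤ 4 * K := by
  classical
  have hsq : ∑ i ∈ Ioo 0 (K + 1), (1 : ℝ) / (i : ℝ) ^ 2 ≤ 2 := by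
    have := sum_Ioo_inv_sq_le (α := ℝ) 0 (K + 1)
    simpa using this
  have h1 : ∀ h ∈ Icc 1 K, ∑ e ∈ h.divisors, (1 : ℝ) / e
      = ∑ e ∈ Ioo 0 (K + 1), if e ∣ h then (1 : ℝ) / e else 0 := by
    intro h hh
    rw [mem_Icc] at hh
    rw [← Finset.sum_filter]
    apply Finset.sum_congr _ (fun _ _ => rfl)
    ext e
    simp only [Nat.mem_divisors, mem_filter, mem_Ioo]
    constructor
    · rintro ⟨h1, h2⟩
      have := Nat.le_of_dvd (by omega) h1
      exact ⟨⟨Nat.pos_of_ne_zero (ne_zero_of_dvd_ne_zero h2 h1), by omega⟩, h1⟩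
    · rintro ⟨_, h2⟩
      exact ⟨h2, by omega⟩
  have h2 : ∑ h ∈ Icc 1 K, ∑ e ∈ h.divisors, (1 : ℝ) / e ≤ 2 * K := by
    rw [Finset.sum_congr rfl h1, Finset.sum_comm]
    calc ∑ e ∈ Ioo 0 (K + 1), ∑ h ∈ Icc 1 K, (if e ∣ h then (1 : ℝ) / e else 0)
        ≤ ∑ e ∈ Ioo 0 (K + 1), (K : ℝ) * (1 / (e : ℝ) ^ 2) := by
          apply Finset.sum_le_sum
          intro e he
          rw [mem_Ioo] at he
          have he' : (0 : ℝ) < e := by exact_mod_cast he.1
          rw [← Finset.sum_filter, Finset.sum_const, nsmul_eq_mul]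
          have h3 : ((Icc 1 K).filter (fun h => e ∣ h)).card = K / e := by
            have := Nat.Ioc_filter_dvd_card_eq_div K e
            rw [← this]
            congr 1
          rw [h3]
          have h4 : ((K / e : ℕ) : ℝ) ≤ K / e := Nat.cast_div_le
          calc ((K / e : ℕ) : ℝ) * (1 / e) ≤ (K / e) * (1 / e) := by gcongr
            _ = (K : ℝ) * (1 / (e : ℝ) ^ 2) := by
              field_simp
      _ = K * ∑ e ∈ Ioo 0 (K + 1), (1 / (e : ℝ) ^ 2) := by rw [Finset.mul_sum]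
      _ ≤ K * 2 := by gcongr
      _ = 2 * K := by ring
  calc ∑ h ∈ Icc 1 K, cfac h = 2 * ∑ h ∈ Icc 1 K, ∑ e ∈ h.divisors, (1 : ℝ) / e := by
        simp only [cfac, Finset.mul_sum]
    _ ≤ 4 * K := by linarith

end

end Pool.Agent.Lib_helper92
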