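import Mathlib
import Pool.Agent.Lib_helper92.SelbergBound
import Pool.Agent.Lib_helper92.PairDensity
import Pool.Agent.Lib_helper92.SumLower

set_option autoImplicit false

/-!
The upper bound sieve for pairs of primes `n, n + h` in intervals.
-/

namespace Pool.Agent.Lib_helper92

open Finset ArithmeticFunction BoundingSieve

noncomputable section

/-- The sieve problem `n (n + h)`, `n ∈ [M, M + H)`. -/
def pairSieve (h M H z : ℕ) (heven : Even h) : BoundingSieve where
  support := (Ico M (M + H)).image (fun n => n * (n + h))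
  prodPrimes := primorial z
  prodPrimes_squarefree := squarefree_primorial z
  weights := fun _ => 1
  weights_nonneg := fun _ => zero_le_one
  totalMass := H
  nu := nuF h
  nu_mult := nuF_mult h
  nu_pos_of_prime := by
    intro p hp _
    rw [nuF_apply]
    have h1 : 0 < rho h p := one_le_rho h hp.pos
    have h2 := hp.pos
    positivity
  nu_lt_one_of_prime := by
    intro p hp _
    rw [nuF_apply, div_lt_one (by exact_mod_cast hp.pos)]
    exact_mod_cast rho_prime_lt hp heven

lemma mul_add_injective (h : ℕ) : Function.Injective (fun n : ℕ => n * (n + h)) := by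
  have : StrictMono (fun n : ℕ => n * (n + h)) := by
    intro a b hab
    exact Nat.mul_lt_mul_of_lt_of_le hab (by omega) (by omega)
  exact this.injective

section

variable (h M H z : ℕ) (heven : Even h)

lemma pairSieve_multSum (d : ℕ) : (pairSieve h M H z heven).multSum d =
    ((Ico M (M + H)).filter (fun n => d ∣ n * (n + h))).card := by
  show ∑ n ∈ (Ico M (M + H)).image (fun n => n * (n + h)), (if d ∣ n then (1 : ℝ) else 0) = _
  rw [Finset.sum_image (fun a _ b _ hab => mul_add_injective h hab), ← Finset.sum_filter]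
  simp

lemma pairSieve_rem (d : ℕ) (hd : 0 < d) : |(pairSieve h M H z heven).rem d| ≤ d := by
  have h1 : (pairSieve h M H z heven).rem d =
      (((Ico M (M + H)).filter (fun n => d ∣ n * (n + h))).card : ℝ) - nuF h d * H := by
    rw [BoundingSieve.rem, pairSieve_multSum]
    rfl
  rw [h1]
  exact (abs_count_sub_le h d M H hd).trans (by exact_mod_cast rho_le h d)

lemma pairSieve_sifted : ((((Ico M (M + H)).filter
    (fun n => z < n ∧ n.Prime ∧ (n + h).Prime)).card : ℕ) : ℝ) ≤
      (pairSieve h M H z heven).siftedSum := by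
  have h1 : (pairSieve h M H z heven).siftedSum =
      (((Ico M (M + H)).filter (fun n => Nat.Coprime (primorial z) (n * (n + h)))).card : ℝ) := by
    show ∑ d ∈ (Ico M (M + H)).image (fun n => n * (n + h)),
      (if Nat.Coprime (primorial z) d then (1 : ℝ) else 0) = _
    rw [Finset.sum_image (fun a _ b _ hab => mul_add_injective h hab), ← Finset.sum_filter]
    simp
  rw [h1]
  norm_cast
  apply Finset.card_le_card
  intro n hn
  rw [mem_filter] at hn ⊢
  refine ⟨hn.1, ?_⟩
  obtain ⟨_, hz, hp1, hp2⟩ := hn
  have key : ∀ q : ℕ, q.Prime → z < q → Nat.Coprime (primorial z) q := by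
    intro q hq hzq
    rw [Nat.coprime_comm, hq.coprime_iff_not_dvd, hq.dvd_primorial_iff]
    omega
  exact Nat.Coprime.mul_right (key n hp1 hz) (key (n + h) hp2 (by omega))

lemma pairSieve_selS_ge : ∑ m ∈ Icc 1 z, zchi h m / m ≤ selS (pairSieve h M H z heven) z := by
  have hset : selD (pairSieve h M H z heven) z = (Icc 1 z).filter Squarefree := by
    ext l
    rw [mem_selD, mem_filter, mem_Icc]
    show l ∣ primorial z ∧ l ≤ z ↔ _
    constructor
    · rintro ⟨h1, h2⟩
      exact ⟨⟨Nat.pos_of_ne_zero (ne_zero_of_dvd_ne_zero (primorial_ne_zero z) h1), h2⟩,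
        Squarefree.squarefree_of_dvd h1 (squarefree_primorial z)⟩
    · rintro ⟨⟨_, h2⟩, h3⟩
      exact ⟨h3.dvd_primorial.trans (primorial_dvd_primorial h2), h2⟩
  have hg : ∀ l ∈ selD (pairSieve h M H z heven) z,
      (pairSieve h M H z heven).selbergTerms l =
        ∏ p ∈ l.primeFactors, (nuF h p / (1 - nuF h p)) := by
    intro l hl
    rw [selbergTerms_apply, ← prod_primeFactors_nu (mem_selD.1 hl).1, ← Finset.prod_mul_distrib]
    rfl
  rw [selS, Finset.sum_congr rfl hg, hset]
  calc ∑ m ∈ Icc 1 z, zchi h m / m
      = ∑ m ∈ Icc 1 z, ∏ p ∈ m.primeFactors,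
        (zchi h (p ^ m.factorization p) / (p : ℝ) ^ m.factorization p) := by
        apply Finset.sum_congr rfl
        intro m hm
        rw [mem_Icc] at hm
        exact zchi_div_eq_prod (by omega)
    _ ≤ _ := by
        apply sum_fiber_radical z (fun p a => zchi h (p ^ a) / (p : ℝ) ^ a)
        · intro p a
          have := zchi_nonneg h (p ^ a)
          positivity
        · intro p hp _
          have hp1 : (1 : ℝ) < p := by exact_mod_cast hp.one_lt
          have hlt : (rho h p : ℝ) < p := by exact_mod_cast rho_prime_lt hp heven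
          have hge : (1 : ℝ) ≤ rho h p := by exact_mod_cast one_le_rho h hp.pos
          have e : nuF h p / (1 - nuF h p) = rho h p / (p - rho h p) := by
            rw [nuF_apply]
            have h1 : (p : ℝ) ≠ 0 := by positivity
            have h2 : (p : ℝ) - rho h p ≠ 0 := by linarith
            have h3 : 1 - (rho h p : ℝ) / p ≠ 0 := by
              rw [one_sub_div h1]
              exact div_ne_zero h2 h1
            field_simp
          rw [e]
          by_cases hph : p ∣ h
          · refine (local_dvd hp hph).trans ?_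
            rw [div_le_div_iff₀ (by linarith) (by linarith)]
            nlinarith
          · have hp3 : 3 ≤ p := by
              have h2 := hp.two_le
              rcases Nat.lt_or_ge 2 p with h3 | h3
              · exact h3
              · have : p = 2 := by omega
                rw [this] at hph
                exact absurd (even_iff_two_dvd.1 heven) hph
            have h2 : (2 : ℝ) ≤ rho h p := by exact_mod_cast two_le_rho_prime hp hph
            refine (local_not_dvd hp hp3 hph).trans ?_
            have hp3' : (3 : ℝ) ≤ p := by exact_mod_cast hp3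
            rw [div_le_div_iff₀ (by linarith) (by linarith)]
            nlinarith

end

/-- Upper bound for the number of prime pairs in an interval. -/
theorem pair_count_le (h M H y : ℕ) (heven : Even h) (hh : h ≠ 0) (hy : 1 ≤ y) :
    ((((Ico M (M + H)).filter (fun n => n.Prime ∧ (n + h).Prime)).card : ℕ) : ℝ) ≤
      H * cfac h / (∑ u ∈ Icc 1 y, (1 : ℝ) / u) ^ 2 + (y : ℝ) ^ 12 + ((y : ℝ) ^ 2 + 1) := by
  set z := y * y with hz
  have hz1 : 1 ≤ z := Nat.mul_pos hy hy
  set A : ℝ := ∑ u ∈ Icc 1 y, (1 : ℝ) / u with hA
  have hA1 : 1 ≤ A := by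
    have h1 := Finset.single_le_sum (f := fun e : ℕ => (1 : ℝ) / e) (s := Icc 1 y)
      (fun i _ => by positivity) (mem_Icc.2 ⟨le_rfl, hy⟩)
    calc (1 : ℝ) = 1 / ((1 : ℕ) : ℝ) := by norm_num
      _ ≤ A := h1
  have hc : 0 < cfac h := cfac_pos hh
  have hS1 : A ^ 2 / cfac h ≤ selS (pairSieve h M H z heven) z := by
    refine le_trans ?_ (pairSieve_selS_ge h M H z heven)
    refine le_trans ?_ (prod_le_sum_zchi h y z le_rfl)
    have h1 := harmonic_le_cfac h y hh
    rw [← hA] at h1 ⊢
    rw [div_le_iff₀ hc]
    nlinarith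
  have hSpos : 0 < selS (pairSieve h M H z heven) z := selS_pos hz1
  have hsel := siftedSum_le_selberg (s := pairSieve h M H z heven) (z := z) hz1
    (by
      intro d hd
      have hd0 : 0 < d := Nat.pos_of_ne_zero (ne_zero_of_dvd_ne_zero prodPrimes_ne_zero hd)
      show (nuF h d)⁻¹ ≤ d
      rw [nuF_apply, inv_div]
      have h1 : (1 : ℝ) ≤ rho h d := by exact_mod_cast one_le_rho h hd0
      exact div_le_self (Nat.cast_nonneg _) h1)
    (by
      intro d hd
      exact pairSieve_rem h M H z heven d
        (Nat.pos_of_ne_zero (ne_zero_of_dvd_ne_zero prodPrimes_ne_zero hd)))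
  have hsif := (pairSieve_sifted h M H z heven).trans hsel
  have htm : (pairSieve h M H z heven).totalMass = H := rfl
  rw [htm] at hsif
  have hmain : (H : ℝ) / selS (pairSieve h M H z heven) z ≤ H * cfac h / A ^ 2 := by
    have h2 : (H : ℝ) / selS (pairSieve h M H z heven) z ≤ H / (A ^ 2 / cfac h) := by
      apply div_le_div_of_nonneg_left (Nat.cast_nonneg _) (by positivity) hS1
    refine h2.trans (le_of_eq ?_)
    field_simp
  have hsplit : ((Ico M (M + H)).filter (fun n => n.Prime ∧ (n + h).Prime)).card ≤
      ((Ico M (M + H)).filter (fun n => z < n ∧ n.Prime ∧ (n + h).Prime)).card + (z + 1) := by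
    have hsub : (Ico M (M + H)).filter (fun n => n.Prime ∧ (n + h).Prime) ⊆
        (Ico M (M + H)).filter (fun n => z < n ∧ n.Prime ∧ (n + h).Prime) ∪ range (z + 1) := by
      intro n hn
      rw [mem_filter] at hn
      rw [mem_union, mem_filter, mem_range]
      by_cases hzn : z < n
      · exact Or.inl ⟨hn.1, hzn, hn.2⟩
      · exact Or.inr (by omega)
    refine (Finset.card_le_card hsub).trans ((Finset.card_union_le _ _).trans ?_)
    rw [card_range]
  have hsplit' : ((((Ico M (M + H)).filter (fun n => n.Prime ∧ (n + h).Prime)).card : ℕ) : ℝ) ≤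
      ((((Ico M (M + H)).filter (fun n => z < n ∧ n.Prime ∧ (n + h).Prime)).card : ℕ) : ℝ)
        + ((z : ℝ) + 1) := by exact_mod_cast hsplit
  have hzr : (z : ℝ) = (y : ℝ) ^ 2 := by rw [hz]; push_cast; ring
  have hz6 : (z : ℝ) ^ 6 = (y : ℝ) ^ 12 := by rw [hzr]; ring
  rw [hz6] at hsif
  rw [hzr] at hsplit'
  linarith

end

end Pool.Agent.Lib_helper92
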