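import Mathlib
import Pool.Agent.Lib_helper92.PairSieve

set_option autoImplicit false

/-!
Prime pairs on average over the difference, in dyadic form.
-/

namespace Pool.Agent.Lib_helper92

open Finset

noncomputable section

/-- The number of `n ∈ [M, M + H)` with `n` and `n + h` both prime. -/
def pcount (h M H : ℕ) : ℕ := ((Ico M (M + H)).filter (fun n => n.Prime ∧ (n + h).Prime)).card

lemma pcount_le_len (h M H : ℕ) : pcount h M H ≤ H := by
  have := Finset.card_filter_le (Ico M (M + H)) (fun n => n.Prime ∧ (n + h).Prime)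
  rw [Nat.card_Ico] at this
  unfold pcount
  omega

lemma pcount_odd {h : ℕ} (M H : ℕ) (hodd : Odd h) : pcount h M H ≤ 1 := by
  unfold pcount
  apply Finset.card_le_one.2
  have key : ∀ n ∈ (Ico M (M + H)).filter (fun n => n.Prime ∧ (n + h).Prime), n = 2 := by
    intro n hn
    rw [mem_filter] at hn
    obtain ⟨_, h1, h2⟩ := hn
    by_contra hne
    have h3 : Odd n := h1.odd_of_ne_two hne
    have h4 : Even (n + h) := h3.add_odd hodd
    have h5 := (Nat.Prime.even_iff h2).1 h4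
    have h6 := h1.two_le
    have h7 : 0 < h := hodd.pos
    omega
  intro a ha b hb
  rw [key a ha, key b hb]

lemma harmonic_two_pow (j : ℕ) : (j : ℝ) / 2 ≤ ∑ u ∈ Icc (1 : ℕ) (2 ^ j), (1 : ℝ) / u := by
  have h1 : Real.log ((2 ^ j + 1 : ℕ) : ℝ) ≤ (harmonic (2 ^ j) : ℝ) :=
    log_add_one_le_harmonic (2 ^ j)
  have h2 : ((harmonic (2 ^ j) : ℚ) : ℝ) = ∑ u ∈ Icc (1 : ℕ) (2 ^ j), (1 : ℝ) / u := by
    rw [harmonic_eq_sum_Icc]
    push_cast
    simp
  rw [h2] at h1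
  refine le_trans ?_ h1
  have h3 : Real.log ((2 : ℝ) ^ j) ≤ Real.log ((2 ^ j + 1 : ℕ) : ℝ) := by
    apply Real.log_le_log (by positivity)
    push_cast
    linarith
  refine le_trans ?_ h3
  rw [Real.log_pow]
  have h4 : (1 : ℝ) / 2 ≤ Real.log 2 := by
    have := Real.log_two_gt_d9
    linarith
  have h5 : (0 : ℝ) ≤ j := Nat.cast_nonneg _
  nlinarith

/-- Pointwise bound in dyadic intervals. -/
lemma pcount_dyadic (h M l : ℕ) (hh : 1 ≤ h) :
    (pcount h M (2 ^ l) : ℝ) ≤ (4096 * cfac h + 3072) * (2 ^ l / ((l : ℝ) + 1) ^ 2) := by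
  have hc : 0 < cfac h := cfac_pos (by omega)
  have hl1 : (0 : ℝ) < (l : ℝ) + 1 := by positivity
  set X : ℝ := 2 ^ l / ((l : ℝ) + 1) ^ 2 with hX
  have hXpos : 0 < X := by positivity
  by_cases hl : l < 16
  · have h1 : (pcount h M (2 ^ l) : ℝ) ≤ 2 ^ l := by exact_mod_cast pcount_le_len h M (2 ^ l)
    have h2 : (l : ℝ) + 1 ≤ 16 := by
      have : l + 1 ≤ 16 := by omega
      exact_mod_cast this
    have h3 : (2 : ℝ) ^ l ≤ 256 * X := by
      rw [hX, mul_div_assoc', le_div_iff₀ (by positivity)]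
      have : ((l : ℝ) + 1) ^ 2 ≤ 256 := by nlinarith
      have h4 : (0 : ℝ) < 2 ^ l := by positivity
      nlinarith
    nlinarith
  · have hl' : 16 ≤ l := by omega
    set j := l / 16 with hj
    have hj1 : 1 ≤ j := by omega
    have hlj : l + 1 ≤ 32 * j := by omega
    have hlj' : 16 * j ≤ l := by omega
    have hj1' : (1 : ℝ) ≤ j := by exact_mod_cast hj1
    have hljr : (l : ℝ) + 1 ≤ 32 * j := by exact_mod_cast hlj
    have hj2 : (j : ℝ) ≤ 2 ^ j := by exact_mod_cast Nat.lt_two_pow_self.le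
    have hpow : (2 : ℝ) ^ (16 * j) ≤ 2 ^ l := pow_le_pow_right₀ (by norm_num) hlj'
    have hsq : ((l : ℝ) + 1) ^ 2 ≤ 1024 * (j : ℝ) ^ 2 := by nlinarith
    have hjj : (j : ℝ) ^ 2 ≤ 2 ^ (4 * j) := by
      have e1 : (j : ℝ) ^ 2 ≤ (2 ^ j) ^ 2 := by gcongr
      have e2 : ((2 : ℝ) ^ j) ^ 2 = 2 ^ (2 * j) := by rw [← pow_mul, mul_comm]
      have e3 : (2 : ℝ) ^ (2 * j) ≤ 2 ^ (4 * j) := pow_le_pow_right₀ (by norm_num) (by omega)
      linarith
    -- the secondary terms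
    have hsec : (2 : ℝ) ^ (12 * j) ≤ 1024 * X := by
      rw [hX, mul_div_assoc', le_div_iff₀ (by positivity)]
      have e1 : (2 : ℝ) ^ (16 * j) = 2 ^ (12 * j) * 2 ^ (4 * j) := by
        rw [← pow_add]; congr 1; ring
      have e2 : (0 : ℝ) < 2 ^ (12 * j) := by positivity
      have e3 : ((l : ℝ) + 1) ^ 2 ≤ 1024 * 2 ^ (4 * j) := hsq.trans (by linarith)
      calc (2 : ℝ) ^ (12 * j) * ((l : ℝ) + 1) ^ 2
          ≤ 2 ^ (12 * j) * (1024 * 2 ^ (4 * j)) := by gcongr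
        _ = 1024 * 2 ^ (16 * j) := by rw [e1]; ring
        _ ≤ 1024 * 2 ^ l := by gcongr
    have hone : (1 : ℝ) ≤ 2 ^ (12 * j) := one_le_pow₀ (by norm_num)
    rcases Nat.even_or_odd h with heven | hodd
    · have hmain := pair_count_le h M (2 ^ l) (2 ^ j) heven (by omega) Nat.one_le_two_pow
      have hA := harmonic_two_pow j
      set A : ℝ := ∑ u ∈ Icc (1 : ℕ) (2 ^ j), (1 : ℝ) / u with hAdef
      have hA2 : (j : ℝ) ^ 2 / 4 ≤ A ^ 2 := by nlinarith
      have hApos : 0 < A ^ 2 := by nlinarith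
      have e1 : ((2 ^ l : ℕ) : ℝ) * cfac h / A ^ 2 ≤ 4096 * cfac h * X := by
        rw [hX, div_le_iff₀ hApos]
        have e2 : (1 : ℝ) ≤ 4096 / ((l : ℝ) + 1) ^ 2 * A ^ 2 := by
          rw [div_mul_eq_mul_div, le_div_iff₀ (by positivity)]
          nlinarith
        push_cast
        have e3 : 4096 * cfac h * (2 ^ l / ((l : ℝ) + 1) ^ 2) * A ^ 2
            = (2 ^ l * cfac h) * (4096 / ((l : ℝ) + 1) ^ 2 * A ^ 2) := by ring
        rw [e3]
        have e4 : (0 : ℝ) < 2 ^ l * cfac h := by positivity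
        nlinarith
      have e5 : (((2 ^ j : ℕ) : ℝ)) ^ 12 = 2 ^ (12 * j) := by
        push_cast
        rw [← pow_mul, mul_comm]
      have e6 : (((2 ^ j : ℕ) : ℝ)) ^ 2 ≤ 2 ^ (12 * j) := by
        push_cast
        rw [← pow_mul, mul_comm]
        exact pow_le_pow_right₀ (by norm_num) (by omega)
      rw [e5] at hmain
      have e7 : (pcount h M (2 ^ l) : ℝ) ≤ 4096 * cfac h * X + 3 * 2 ^ (12 * j) := by
        unfold pcount
        linarith
      linarith
    · have h1 : (pcount h M (2 ^ l) : ℝ) ≤ 1 := by exact_mod_cast pcount_odd M (2 ^ l) hodd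
      nlinarith

/-- Prime pairs on average over the difference. -/
theorem sum_pcount_le (K M l : ℕ) :
    ∑ h ∈ Icc 1 K, (pcount h M (2 ^ l) : ℝ) ≤ 19456 * K * (2 ^ l / ((l : ℝ) + 1) ^ 2) := by
  have hX : (0 : ℝ) < 2 ^ l / ((l : ℝ) + 1) ^ 2 := by positivity
  calc ∑ h ∈ Icc 1 K, (pcount h M (2 ^ l) : ℝ)
      ≤ ∑ h ∈ Icc 1 K, (4096 * cfac h + 3072) * (2 ^ l / ((l : ℝ) + 1) ^ 2) := by
        apply Finset.sum_le_sum
        intro h hh
        rw [mem_Icc] at hh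
        exact pcount_dyadic h M l hh.1
    _ = (4096 * ∑ h ∈ Icc 1 K, cfac h + 3072 * K) * (2 ^ l / ((l : ℝ) + 1) ^ 2) := by
        rw [← Finset.sum_mul, Finset.sum_add_distrib, ← Finset.mul_sum]
        simp [mul_comm]
    _ ≤ (4096 * (4 * K) + 3072 * K) * (2 ^ l / ((l : ℝ) + 1) ^ 2) := by
        have := sum_cfac_le K
        gcongr
    _ = 19456 * K * (2 ^ l / ((l : ℝ) + 1) ^ 2) := by ring

end

end Pool.Agent.Lib_helper92
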