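import Mathlib
import Pool.Agent.Lib_helper92.PairAverage

set_option autoImplicit false

/-!
The energy argument for reciprocal differences of primes.
-/

namespace Pool.Agent.Lib_helper92

open Finset

noncomputable section

/-- `|a - b| ≤ 2^l`. -/
def rel (l a b : ℕ) : Prop := b ≤ a + 2 ^ l ∧ a ≤ b + 2 ^ l

instance (l a b : ℕ) : Decidable (rel l a b) := by unfold rel; infer_instance

lemma rel_symm {l a b : ℕ} (h : rel l a b) : rel l b a := ⟨h.2, h.1⟩

lemma rel_comm {l a b : ℕ} : rel l a b ↔ rel l b a := ⟨rel_symm, rel_symm⟩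

lemma rel_self (l a : ℕ) : rel l a a := ⟨Nat.le_add_right _ _, Nat.le_add_right _ _⟩

/-- Number of other elements of `A` within `2^k` of `a`. -/
def cc (A : Finset ℕ) (k a : ℕ) : ℕ := (A.filter (fun b => b ≠ a ∧ rel k a b)).card

/-- Number of elements of `A` within `2^k` of `a`. -/
def nn (A : Finset ℕ) (k a : ℕ) : ℕ := (A.filter (fun b => rel k a b)).card

lemma nn_eq {A : Finset ℕ} {a : ℕ} (k : ℕ) (ha : a ∈ A) : nn A k a = cc A k a + 1 := by
  unfold nn cc
  have : A.filter (fun b => rel k a b) = insert a (A.filter (fun b => b ≠ a ∧ rel k a b)) := by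
    ext b
    simp only [mem_filter, mem_insert]
    constructor
    · rintro ⟨h1, h2⟩
      by_cases h : b = a
      · exact Or.inl h
      · exact Or.inr ⟨h1, h, h2⟩
    · rintro (rfl | ⟨h1, _, h2⟩)
      · exact ⟨ha, rel_self _ _⟩
      · exact ⟨h1, h2⟩
  rw [this, Finset.card_insert_of_notMem]
  simp

lemma cc_le_sum (A : Finset ℕ) (k a : ℕ) :
    cc A k a ≤ ((Icc 1 (2 ^ k)).filter (fun h => a + h ∈ A)).card +
      ((Icc 1 (2 ^ k)).filter (fun h => h ≤ a ∧ a - h ∈ A)).card := by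
  classical
  have hsub : A.filter (fun b => b ≠ a ∧ rel k a b) ⊆
      ((Icc 1 (2 ^ k)).filter (fun h => a + h ∈ A)).image (fun h => a + h) ∪
      ((Icc 1 (2 ^ k)).filter (fun h => h ≤ a ∧ a - h ∈ A)).image (fun h => a - h) := by
    intro b hb
    rw [mem_filter] at hb
    obtain ⟨h1, h2, h3, h4⟩ := hb
    rw [mem_union, mem_image, mem_image]
    rcases lt_or_gt_of_ne h2 with h5 | h5
    · right
      refine ⟨a - b, ?_, by omega⟩
      rw [mem_filter, mem_Icc]
      have : a - (a - b) = b := by omega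
      rw [this]
      exact ⟨⟨by omega, by omega⟩, by omega, h1⟩
    · left
      refine ⟨b - a, ?_, by omega⟩
      rw [mem_filter, mem_Icc]
      have : a + (b - a) = b := by omega
      rw [this]
      exact ⟨⟨by omega, by omega⟩, h1⟩
  refine (Finset.card_le_card hsub).trans ((Finset.card_union_le _ _).trans ?_)
  exact Nat.add_le_add Finset.card_image_le Finset.card_image_le

/-- The sieve input: the sum of `cc A k a` over `a` in a window of radius `2^l`. -/
lemma sum_cc_window {A : Finset ℕ} (hA : ∀ p ∈ A, p.Prime) {k l : ℕ} (hkl : k ≤ l) (b : ℕ) :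
    ∑ a ∈ A.filter (fun a => rel l b a), (cc A k a : ℝ) ≤
      160000 * 2 ^ k * (2 ^ l / ((l : ℝ) + 1) ^ 2) := by
  classical
  have hpk : 2 ^ k ≤ 2 ^ l := Nat.pow_le_pow_right (by norm_num) hkl
  have hpk0 : 0 < 2 ^ k := Nat.two_pow_pos k
  have hpl1 : 2 ^ (l + 2) = 4 * 2 ^ l := by rw [pow_add]; ring
  set M := b - 2 * 2 ^ l with hM
  set F := A.filter (fun a => rel l b a) with hF
  set I := Icc 1 (2 ^ k) with hI
  have hwin : ∀ a ∈ F, a.Prime ∧ M ≤ a ∧ a < M + 4 * 2 ^ l ∧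
      ∀ h, h ≤ 2 ^ k → M ≤ a - h := by
    intro a ha
    rw [hF, mem_filter] at ha
    obtain ⟨h1, h2, h3⟩ := ha
    refine ⟨hA a h1, by omega, by omega, ?_⟩
    intro h hh
    omega
  have h1 : ∑ a ∈ F, (I.filter (fun h => a + h ∈ A)).card ≤ ∑ h ∈ I, pcount h M (4 * 2 ^ l) := by
    simp only [Finset.card_filter]
    rw [Finset.sum_comm]
    apply Finset.sum_le_sum
    intro h _
    rw [← Finset.card_filter]
    apply Finset.card_le_card
    intro a ha
    rw [mem_filter] at ha ⊢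
    obtain ⟨w1, w2, w3, _⟩ := hwin a ha.1
    exact ⟨mem_Ico.2 ⟨w2, w3⟩, w1, hA _ ha.2⟩
  have h2 : ∑ a ∈ F, (I.filter (fun h => h ≤ a ∧ a - h ∈ A)).card ≤
      ∑ h ∈ I, pcount h M (4 * 2 ^ l) := by
    simp only [Finset.card_filter]
    rw [Finset.sum_comm]
    apply Finset.sum_le_sum
    intro h hh
    rw [hI, mem_Icc] at hh
    rw [← Finset.card_filter]
    apply Finset.card_le_card_of_injOn (fun a => a - h)
    · intro a ha
      rw [mem_coe, mem_filter] at ha ⊢
      obtain ⟨w1, w2, w3, w4⟩ := hwin a ha.1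
      have e : a - h + h = a := by omega
      simp only
      rw [e]
      refine ⟨mem_Ico.2 ⟨w4 h hh.2, ?_⟩, hA _ ha.2.2, w1⟩
      omega
    · intro a ha a' ha' haa
      rw [mem_coe, mem_filter] at ha ha'
      simp only at haa
      omega
  have h3 : ∑ a ∈ F, cc A k a ≤ 2 * ∑ h ∈ I, pcount h M (4 * 2 ^ l) := by
    calc ∑ a ∈ F, cc A k a ≤ ∑ a ∈ F, ((I.filter (fun h => a + h ∈ A)).card +
          (I.filter (fun h => h ≤ a ∧ a - h ∈ A)).card) :=
          Finset.sum_le_sum fun a _ => cc_le_sum A k a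
      _ ≤ 2 * ∑ h ∈ I, pcount h M (4 * 2 ^ l) := by
          rw [Finset.sum_add_distrib]
          omega
  have h4 := sum_pcount_le (2 ^ k) M (l + 2)
  rw [hpl1] at h4
  have h5 : ∑ a ∈ F, (cc A k a : ℝ) ≤ 2 * ∑ h ∈ I, (pcount h M (4 * 2 ^ l) : ℝ) := by
    exact_mod_cast h3
  have h6 : (2 : ℝ) ^ (l + 2) / (((l + 2 : ℕ) : ℝ) + 1) ^ 2 ≤ 4 * (2 ^ l / ((l : ℝ) + 1) ^ 2) := by
    rw [mul_div_assoc']
    have e : (2 : ℝ) ^ (l + 2) = 4 * 2 ^ l := by rw [pow_add]; ring
    rw [e]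
    apply div_le_div_of_nonneg_left (by positivity) (by positivity)
    push_cast
    gcongr
    linarith
  have hX : (0 : ℝ) < 2 ^ l / ((l : ℝ) + 1) ^ 2 := by positivity
  have hk : (0 : ℝ) < 2 ^ k := by positivity
  calc ∑ a ∈ F, (cc A k a : ℝ) ≤ 2 * ∑ h ∈ I, (pcount h M (4 * 2 ^ l) : ℝ) := h5
    _ ≤ 2 * (19456 * ((2 ^ k : ℕ) : ℝ) * (2 ^ (l + 2) / (((l + 2 : ℕ) : ℝ) + 1) ^ 2)) := by
        gcongr
    _ ≤ 2 * (19456 * ((2 ^ k : ℕ) : ℝ) * (4 * (2 ^ l / ((l : ℝ) + 1) ^ 2))) := by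
        gcongr
    _ = 155648 * 2 ^ k * (2 ^ l / ((l : ℝ) + 1) ^ 2) := by push_cast; ring
    _ ≤ 160000 * 2 ^ k * (2 ^ l / ((l : ℝ) + 1) ^ 2) := by
        gcongr
        norm_num

/-- `E k a = c_k(a) / 2^k`. -/
def EE (A : Finset ℕ) (k a : ℕ) : ℝ := (cc A k a : ℝ) / 2 ^ k

lemma EE_nonneg (A : Finset ℕ) (k a : ℕ) : 0 ≤ EE A k a := by
  unfold EE; positivity

/-- A packing inequality on the line. -/
lemma sum_inv_nn_le (A : Finset ℕ) (l a : ℕ) :
    ∑ b ∈ A.filter (fun b => rel l a b), (1 : ℝ) / nn A l b ≤ 2 := by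
  classical
  set P := A.filter (fun b => a ≤ b ∧ b ≤ a + 2 ^ l) with hP
  set N := A.filter (fun b => b ≤ a ∧ a ≤ b + 2 ^ l) with hN
  have half : ∀ (S : Finset ℕ), S ⊆ A → (∀ b ∈ S, ∀ b' ∈ S, rel l b b') →
      ∑ b ∈ S, (1 : ℝ) / nn A l b ≤ 1 := by
    intro S hS hrel
    rcases S.eq_empty_or_nonempty with rfl | hne
    · simp
    have hcard : (0 : ℝ) < S.card := by exact_mod_cast hne.card_pos
    calc ∑ b ∈ S, (1 : ℝ) / nn A l b ≤ ∑ _b ∈ S, (1 : ℝ) / S.card := by
          apply Finset.sum_le_sum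
          intro b hb
          apply div_le_div_of_nonneg_left zero_le_one hcard
          have : S.card ≤ nn A l b := by
            apply Finset.card_le_card
            intro b' hb'
            rw [mem_filter]
            exact ⟨hS hb', hrel b hb b' hb'⟩
          exact_mod_cast this
      _ = 1 := by
          rw [Finset.sum_const, nsmul_eq_mul]
          field_simp
  have hsub : A.filter (fun b => rel l a b) ⊆ P ∪ N := by
    intro b hb
    rw [mem_filter] at hb
    rw [mem_union, hP, hN, mem_filter, mem_filter]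
    obtain ⟨h1, h2, h3⟩ := hb
    rcases le_total a b with h4 | h4
    · exact Or.inl ⟨h1, h4, h2⟩
    · exact Or.inr ⟨h1, h4, h3⟩
  calc ∑ b ∈ A.filter (fun b => rel l a b), (1 : ℝ) / nn A l b
      ≤ ∑ b ∈ P ∪ N, (1 : ℝ) / nn A l b := by
        apply Finset.sum_le_sum_of_subset_of_nonneg hsub
        intro b _ _
        positivity
    _ ≤ ∑ b ∈ P, (1 : ℝ) / nn A l b + ∑ b ∈ N, (1 : ℝ) / nn A l b := by
        rw [← Finset.sum_union_inter]
        have : 0 ≤ ∑ b ∈ P ∩ N, (1 : ℝ) / nn A l b := Finset.sum_nonneg fun b _ => by positivity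
        linarith
    _ ≤ 1 + 1 := by
        apply add_le_add
        · apply half P (Finset.filter_subset _ _)
          intro b hb b' hb'
          rw [hP, mem_filter] at hb hb'
          unfold rel
          omega
        · apply half N (Finset.filter_subset _ _)
          intro b hb b' hb'
          rw [hN, mem_filter] at hb hb'
          unfold rel
          omega
    _ = 2 := by norm_num

/-- Elementary inequality (AM-GM with the sieve cap). -/
lemma cap_ineq {Y m W u : ℝ} (hY : 0 ≤ Y) (hW : 0 < W) (hu : 0 < u) (hm : 0 < m)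
    (hcap : m ^ 2 * Y ≤ 160000 * W) :
    Y / W ≤ 200 / m * (u * Y + u⁻¹ / W) := by
  have h1 : (m * Y / 200) ^ 2 ≤ (W * u * Y + u⁻¹) ^ 2 := by
    have e1 : (W * u * Y + u⁻¹) ^ 2 = (W * u * Y - u⁻¹) ^ 2 + 4 * (W * Y) := by
      field_simp
      ring
    rw [e1]
    have e2 : (m * Y / 200) ^ 2 = (m ^ 2 * Y) * Y / 40000 := by ring
    rw [e2]
    have e3 : (m ^ 2 * Y) * Y ≤ 160000 * W * Y := by gcongr
    nlinarith [sq_nonneg (W * u * Y - u⁻¹)]
  have h2 : m * Y / 200 ≤ W * u * Y + u⁻¹ := by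
    apply le_of_sq_le_sq h1
    positivity
  have h3 : Y ≤ 200 / m * (W * u * Y + u⁻¹) := by
    rw [div_mul_eq_mul_div, le_div_iff₀ hm]
    linarith
  rw [div_le_iff₀ hW]
  calc Y ≤ 200 / m * (W * u * Y + u⁻¹) := h3
    _ = 200 / m * (u * Y + u⁻¹ / W) * W := by
        field_simp

end

end Pool.Agent.Lib_helper92
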