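import Mathlib
import Pool.Agent.Lib_helper92.PrimeEnergy

set_option autoImplicit false

/-!
The energy argument, summation over scales.
-/

namespace Pool.Agent.Lib_helper92

open Finset

noncomputable section

/-- Correlation of two scales. -/
theorem sum_EE_mul_le {A : Finset ℕ} (hA : ∀ p ∈ A, p.Prime) {k l : ℕ} (hkl : k ≤ l)
    {θ : ℝ} (hθ : 0 < θ) :
    ∑ a ∈ A, EE A k a * EE A l a ≤
      200 / ((l : ℝ) + 1) * (2 * θ * ∑ a ∈ A, EE A k a
        + θ⁻¹ * (∑ a ∈ A, EE A l a + A.card / 2 ^ l)) := by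
  classical
  set Y : ℕ → ℝ := fun b => ∑ a ∈ A.filter (fun a => rel l b a), EE A k a with hY
  have hW : (0 : ℝ) < 2 ^ l := by positivity
  have hm : (0 : ℝ) < (l : ℝ) + 1 := by positivity
  have hnn : ∀ b ∈ A, (0 : ℝ) < nn A l b := by
    intro b hb
    rw [nn_eq l hb]
    positivity
  have hYnonneg : ∀ b, 0 ≤ Y b := fun b => Finset.sum_nonneg fun a _ => EE_nonneg A k a
  have hcap : ∀ b, ((l : ℝ) + 1) ^ 2 * Y b ≤ 160000 * 2 ^ l := by
    intro b
    have h1 := sum_cc_window hA hkl b
    have h2 : Y b = (∑ a ∈ A.filter (fun a => rel l b a), (cc A k a : ℝ)) / 2 ^ k := by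
      rw [hY]
      simp only [EE]
      rw [Finset.sum_div]
    rw [h2]
    have hk : (0 : ℝ) < 2 ^ k := by positivity
    calc ((l : ℝ) + 1) ^ 2 * ((∑ a ∈ A.filter (fun a => rel l b a), (cc A k a : ℝ)) / 2 ^ k)
        ≤ ((l : ℝ) + 1) ^ 2 * ((160000 * 2 ^ k * (2 ^ l / ((l : ℝ) + 1) ^ 2)) / 2 ^ k) := by
          gcongr
      _ = 160000 * 2 ^ l := by field_simp
  -- first step: pass to a sum of Y over A
  have step1 : ∑ a ∈ A, EE A k a * EE A l a ≤ ∑ b ∈ A, Y b / 2 ^ l := by
    have e1 : ∀ a ∈ A, EE A k a * EE A l a ≤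
        ∑ b ∈ A, if rel l b a then EE A k a / 2 ^ l else 0 := by
      intro a ha
      have h0 := EE_nonneg A k a
      calc EE A k a * EE A l a ≤ EE A k a * ((nn A l a : ℝ) / 2 ^ l) := by
            have : EE A l a ≤ (nn A l a : ℝ) / 2 ^ l := by
              unfold EE
              rw [nn_eq l ha]
              push_cast
              gcongr
              linarith
            gcongr
        _ = ∑ b ∈ A, if rel l b a then EE A k a / 2 ^ l else 0 := by
            rw [← Finset.sum_filter, Finset.sum_const, nsmul_eq_mul]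
            have : (A.filter (fun b => rel l b a)).card = nn A l a := by
              unfold nn
              congr 1
              ext b
              rw [mem_filter, mem_filter, rel_comm]
            rw [this]
            ring
    refine (Finset.sum_le_sum e1).trans (le_of_eq ?_)
    rw [Finset.sum_comm]
    apply Finset.sum_congr rfl
    intro b _
    rw [hY, ← Finset.sum_filter, Finset.sum_div]
  have step2 : ∀ b ∈ A, Y b / 2 ^ l ≤
      200 / ((l : ℝ) + 1) * (θ * (Y b / nn A l b) + θ⁻¹ * ((nn A l b : ℝ) / 2 ^ l)) := by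
    intro b hb
    have hn := hnn b hb
    have := cap_ineq (Y := Y b) (m := (l : ℝ) + 1) (W := 2 ^ l) (u := θ / nn A l b)
      (hYnonneg b) hW (by positivity) hm (hcap b)
    refine this.trans (le_of_eq ?_)
    congr 1
    field_simp
  have step3 : ∑ b ∈ A, Y b / nn A l b ≤ 2 * ∑ a ∈ A, EE A k a := by
    have e1 : ∑ b ∈ A, Y b / nn A l b =
        ∑ a ∈ A, EE A k a * ∑ b ∈ A.filter (fun b => rel l a b), (1 : ℝ) / nn A l b := by
      have : ∀ b ∈ A, Y b / nn A l b = ∑ a ∈ A, if rel l b a then EE A k a / nn A l b else 0 := by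
        intro b _
        rw [hY, Finset.sum_div, ← Finset.sum_filter]
      rw [Finset.sum_congr rfl this, Finset.sum_comm]
      apply Finset.sum_congr rfl
      intro a _
      rw [Finset.mul_sum, Finset.sum_filter]
      apply Finset.sum_congr rfl
      intro b _
      by_cases h : rel l a b
      · rw [if_pos h, if_pos (rel_symm h), mul_one_div]
      · rw [if_neg h, if_neg (fun h' => h (rel_symm h'))]
    rw [e1, Finset.mul_sum]
    apply Finset.sum_le_sum
    intro a _
    have h1 := sum_inv_nn_le A l a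
    have h2 := EE_nonneg A k a
    nlinarith
  have step4 : ∑ b ∈ A, (nn A l b : ℝ) / 2 ^ l = ∑ a ∈ A, EE A l a + A.card / 2 ^ l := by
    have : ∀ b ∈ A, (nn A l b : ℝ) / 2 ^ l = EE A l b + 1 / 2 ^ l := by
      intro b hb
      rw [nn_eq l hb, EE]
      push_cast
      ring
    rw [Finset.sum_congr rfl this, Finset.sum_add_distrib, Finset.sum_const, nsmul_eq_mul,
      mul_one_div]
  calc ∑ a ∈ A, EE A k a * EE A l a ≤ ∑ b ∈ A, Y b / 2 ^ l := step1
    _ ≤ ∑ b ∈ A, 200 / ((l : ℝ) + 1) *
          (θ * (Y b / nn A l b) + θ⁻¹ * ((nn A l b : ℝ) / 2 ^ l)) := Finset.sum_le_sum step2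
    _ = 200 / ((l : ℝ) + 1) * (θ * ∑ b ∈ A, Y b / nn A l b
          + θ⁻¹ * ∑ b ∈ A, (nn A l b : ℝ) / 2 ^ l) := by
        rw [← Finset.mul_sum, Finset.sum_add_distrib, ← Finset.mul_sum, ← Finset.mul_sum]
    _ ≤ 200 / ((l : ℝ) + 1) * (θ * (2 * ∑ a ∈ A, EE A k a)
          + θ⁻¹ * (∑ a ∈ A, EE A l a + A.card / 2 ^ l)) := by
        rw [step4]
        gcongr
    _ = _ := by ring

/-- `∑ 1/√(k+1) ≤ 2 √n`. -/
lemma sum_inv_sqrt_le (n : ℕ) :
    ∑ k ∈ range n, 1 / Real.sqrt ((k : ℝ) + 1) ≤ 2 * Real.sqrt n := by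
  induction n with
  | zero => simp
  | succ n ih =>
    rw [Finset.sum_range_succ]
    push_cast
    set s := Real.sqrt (n : ℝ) with hs
    set t := Real.sqrt ((n : ℝ) + 1) with ht
    have hn : (0 : ℝ) ≤ n := Nat.cast_nonneg _
    have hs0 : 0 ≤ s := Real.sqrt_nonneg _
    have ht0 : 0 < t := Real.sqrt_pos.2 (by linarith)
    have hs2 : s ^ 2 = n := Real.sq_sqrt hn
    have ht2 : t ^ 2 = n + 1 := Real.sq_sqrt (by linarith)
    have hst : s ≤ t := Real.sqrt_le_sqrt (by linarith)
    have key : 1 / t ≤ 2 * t - 2 * s := by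
      rw [div_le_iff₀ ht0]
      nlinarith
    linarith

/-- `∑_{l ≥ k} (l+1)^(-3/2) ≤ 3/√(k+1)`. -/
lemma sum_inv_threehalf_le (k N : ℕ) :
    ∑ l ∈ Ico k N, 1 / (((l : ℝ) + 1) * Real.sqrt ((l : ℝ) + 1)) ≤
      3 / Real.sqrt ((k : ℝ) + 1) := by
  rcases Nat.lt_or_ge k N with hkN | hkN
  · have key : ∀ N, k + 1 ≤ N →
        ∑ l ∈ Ico k N, 1 / (((l : ℝ) + 1) * Real.sqrt ((l : ℝ) + 1)) ≤
          3 / Real.sqrt ((k : ℝ) + 1) - 2 / Real.sqrt (N : ℝ) := by
      intro N hN
      induction N, hN using Nat.le_induction with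
      | base =>
        rw [Finset.sum_Ico_succ_top (le_refl k), Finset.Ico_self, Finset.sum_empty, zero_add]
        push_cast
        have ht0 : 0 < Real.sqrt ((k : ℝ) + 1) := Real.sqrt_pos.2 (by positivity)
        have hk : (1 : ℝ) ≤ (k : ℝ) + 1 := by
          have : (0 : ℝ) ≤ k := Nat.cast_nonneg _
          linarith
        have e : 3 / Real.sqrt ((k : ℝ) + 1) - 2 / Real.sqrt ((k : ℝ) + 1)
            = 1 / Real.sqrt ((k : ℝ) + 1) := by ring
        rw [e]
        apply div_le_div_of_nonneg_left zero_le_one ht0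
        nlinarith
      | succ N hN ih =>
        rw [Finset.sum_Ico_succ_top (by omega)]
        push_cast
        set s := Real.sqrt (N : ℝ) with hs
        set t := Real.sqrt ((N : ℝ) + 1) with ht
        have hN1 : (1 : ℝ) ≤ N := by
          have : 1 ≤ N := by omega
          exact_mod_cast this
        have hs0 : 0 < s := Real.sqrt_pos.2 (by linarith)
        have ht0 : 0 < t := Real.sqrt_pos.2 (by linarith)
        have hs2 : s ^ 2 = N := Real.sq_sqrt (by linarith)
        have ht2 : t ^ 2 = N + 1 := Real.sq_sqrt (by linarith)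
        have hst : s ≤ t := Real.sqrt_le_sqrt (by linarith)
        have key : 1 / (((N : ℝ) + 1) * t) ≤ 2 / s - 2 / t := by
          have h1 : 2 / s - 2 / t = 2 * (t - s) / (s * t) := by
            field_simp
          rw [h1, ← ht2, div_le_div_iff₀ (by positivity) (by positivity)]
          have h2 : (t - s) * (t + s) = 1 := by nlinarith
          have h3 : 0 ≤ t - s := by linarith
          have h4 : s * t * ((t - s) * (t + s)) ≤ 2 * (t - s) * (t ^ 2 * t) := by
            have : s * (t + s) ≤ 2 * t ^ 2 := by nlinarith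
            have h5 : 0 ≤ t * (t - s) := by positivity
            nlinarith
          rw [h2, mul_one] at h4
          linarith
        linarith
    have h1 := key N hkN
    have h2 : 0 ≤ 2 / Real.sqrt (N : ℝ) := by positivity
    linarith
  · rw [Finset.Ico_eq_empty_of_le hkN, Finset.sum_empty]
    positivity

/-- Total energy at most a constant times the number of primes. -/
theorem total_energy_le {A : Finset ℕ} (hA : ∀ p ∈ A, p.Prime) (N : ℕ) :
    ∑ a ∈ A, ∑ k ∈ range N, EE A k a ≤ 3201 * A.card := by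
  classical
  set n : ℝ := (A.card : ℝ) with hn
  have hn0 : 0 ≤ n := Nat.cast_nonneg _
  set e : ℕ → ℝ := fun k => ∑ a ∈ A, EE A k a with he
  have he0 : ∀ k, 0 ≤ e k := fun k => Finset.sum_nonneg fun a _ => EE_nonneg A k a
  set P : ℕ → ℕ → ℝ := fun k l => ∑ a ∈ A, EE A k a * EE A l a with hP
  have hP0 : ∀ k l, 0 ≤ P k l := fun k l =>
    Finset.sum_nonneg fun a _ => mul_nonneg (EE_nonneg A k a) (EE_nonneg A l a)
  have hPsymm : ∀ k l, P k l = P l k := by
    intro k l
    rw [hP]
    exact Finset.sum_congr rfl fun a _ => mul_comm _ _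
  set T : ℝ := ∑ a ∈ A, ∑ k ∈ range N, EE A k a with hT
  have hT' : T = ∑ k ∈ range N, e k := by
    rw [hT, Finset.sum_comm]
  have hT0 : 0 ≤ T := by
    rw [hT']
    exact Finset.sum_nonneg fun k _ => he0 k
  -- the quadratic quantity
  have hQ : ∑ a ∈ A, (∑ k ∈ range N, EE A k a) ^ 2 = ∑ k ∈ range N, ∑ l ∈ range N, P k l := by
    have : ∀ a ∈ A, (∑ k ∈ range N, EE A k a) ^ 2 =
        ∑ k ∈ range N, ∑ l ∈ range N, EE A k a * EE A l a := by
      intro a _
      rw [sq, Finset.sum_mul_sum]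
    rw [Finset.sum_congr rfl this, Finset.sum_comm]
    apply Finset.sum_congr rfl
    intro k _
    rw [Finset.sum_comm]
  have hhalf : ∑ k ∈ range N, ∑ l ∈ range N, P k l ≤
      2 * ∑ l ∈ range N, ∑ k ∈ range (l + 1), P k l := by
    have h1 : ∀ k ∈ range N, ∀ l ∈ range N, P k l ≤
        (if k ≤ l then P k l else 0) + (if l ≤ k then P k l else 0) := by
      intro k _ l _
      have := hP0 k l
      rcases le_total k l with h | h
      · rw [if_pos h]
        split_ifs <;> linarith
      · rw [if_pos h]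
        split_ifs <;> linarith
    have h2 : ∀ l ∈ range N, ∑ k ∈ range N, (if k ≤ l then P k l else 0)
        = ∑ k ∈ range (l + 1), P k l := by
      intro l hl
      rw [mem_range] at hl
      rw [← Finset.sum_filter]
      apply Finset.sum_congr _ fun _ _ => rfl
      ext k
      rw [mem_filter, mem_range, mem_range]
      omega
    have h3 : ∑ k ∈ range N, ∑ l ∈ range N, (if k ≤ l then P k l else 0)
        = ∑ l ∈ range N, ∑ k ∈ range (l + 1), P k l := by
      rw [Finset.sum_comm]
      exact Finset.sum_congr rfl h2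
    have h4 : ∑ k ∈ range N, ∑ l ∈ range N, (if l ≤ k then P k l else 0)
        = ∑ l ∈ range N, ∑ k ∈ range (l + 1), P k l := by
      apply Finset.sum_congr rfl
      intro k hk
      rw [← h2 k hk]
      apply Finset.sum_congr rfl
      intro l _
      rw [hPsymm]
    calc ∑ k ∈ range N, ∑ l ∈ range N, P k l
        ≤ ∑ k ∈ range N, ∑ l ∈ range N,
          ((if k ≤ l then P k l else 0) + (if l ≤ k then P k l else 0)) :=
          Finset.sum_le_sum fun k hk => Finset.sum_le_sum fun l hl => h1 k hk l hl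
      _ = 2 * ∑ l ∈ range N, ∑ k ∈ range (l + 1), P k l := by
          simp only [Finset.sum_add_distrib]
          rw [h3, h4]
          ring
  -- the bound for each pair of scales
  set g : ℕ → ℝ := fun l => e l + n / 2 ^ l with hg
  have hg0 : ∀ l, 0 ≤ g l := fun l => add_nonneg (he0 l) (by positivity)
  have hpair : ∀ l, ∀ k ∈ range (l + 1), P k l ≤
      400 * (e k * Real.sqrt ((k : ℝ) + 1)) * (1 / (((l : ℝ) + 1) * Real.sqrt ((l : ℝ) + 1)))
        + 200 * (g l / Real.sqrt ((l : ℝ) + 1)) * (1 / Real.sqrt ((k : ℝ) + 1)) := by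
    intro l k hk
    rw [mem_range] at hk
    have hsk : 0 < Real.sqrt ((k : ℝ) + 1) := Real.sqrt_pos.2 (by positivity)
    have hsl : 0 < Real.sqrt ((l : ℝ) + 1) := Real.sqrt_pos.2 (by positivity)
    have h1 := sum_EE_mul_le hA (k := k) (l := l) (by omega)
      (θ := Real.sqrt ((k : ℝ) + 1) / Real.sqrt ((l : ℝ) + 1)) (by positivity)
    have h2 : (l : ℝ) + 1 = Real.sqrt ((l : ℝ) + 1) ^ 2 := (Real.sq_sqrt (by positivity)).symm
    refine h1.trans (le_of_eq ?_)
    have h3 : 200 / ((l : ℝ) + 1) * (2 * (Real.sqrt ((k : ℝ) + 1) / Real.sqrt ((l : ℝ) + 1)) * e k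
        + (Real.sqrt ((k : ℝ) + 1) / Real.sqrt ((l : ℝ) + 1))⁻¹ * g l) =
      400 * (e k * Real.sqrt ((k : ℝ) + 1)) * (1 / (((l : ℝ) + 1) * Real.sqrt ((l : ℝ) + 1)))
        + 200 * (g l / Real.sqrt ((l : ℝ) + 1)) * (1 / Real.sqrt ((k : ℝ) + 1)) := by
      set x := Real.sqrt ((k : ℝ) + 1)
      set y := Real.sqrt ((l : ℝ) + 1)
      rw [h2]
      field_simp
      ring
    exact h3
  have hsum1 : ∑ l ∈ range N, ∑ k ∈ range (l + 1),
      400 * (e k * Real.sqrt ((k : ℝ) + 1)) * (1 / (((l : ℝ) + 1) * Real.sqrt ((l : ℝ) + 1)))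
        ≤ 1200 * T := by
    have h1 : ∑ l ∈ range N, ∑ k ∈ range (l + 1),
      400 * (e k * Real.sqrt ((k : ℝ) + 1)) * (1 / (((l : ℝ) + 1) * Real.sqrt ((l : ℝ) + 1)))
        = ∑ k ∈ range N, ∑ l ∈ Ico k N,
      400 * (e k * Real.sqrt ((k : ℝ) + 1)) * (1 / (((l : ℝ) + 1) * Real.sqrt ((l : ℝ) + 1))) := by
      apply Finset.sum_comm'
      intro l k
      simp only [mem_range, mem_Ico]
      omega
    rw [h1, hT', Finset.mul_sum]
    apply Finset.sum_le_sum
    intro k _
    rw [← Finset.mul_sum]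
    have hsk : 0 < Real.sqrt ((k : ℝ) + 1) := Real.sqrt_pos.2 (by positivity)
    have hek := he0 k
    calc 400 * (e k * Real.sqrt ((k : ℝ) + 1)) *
          ∑ l ∈ Ico k N, 1 / (((l : ℝ) + 1) * Real.sqrt ((l : ℝ) + 1))
        ≤ 400 * (e k * Real.sqrt ((k : ℝ) + 1)) * (3 / Real.sqrt ((k : ℝ) + 1)) := by
          apply mul_le_mul_of_nonneg_left (sum_inv_threehalf_le k N)
          positivity
      _ = 1200 * e k := by
          field_simp
          ring
  have hsum2 : ∑ l ∈ range N, ∑ k ∈ range (l + 1),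
      200 * (g l / Real.sqrt ((l : ℝ) + 1)) * (1 / Real.sqrt ((k : ℝ) + 1))
        ≤ 400 * (T + 2 * n) := by
    have h1 : ∀ l ∈ range N, ∑ k ∈ range (l + 1),
      200 * (g l / Real.sqrt ((l : ℝ) + 1)) * (1 / Real.sqrt ((k : ℝ) + 1)) ≤ 400 * g l := by
      intro l _
      rw [← Finset.mul_sum]
      have hsl : 0 < Real.sqrt ((l : ℝ) + 1) := Real.sqrt_pos.2 (by positivity)
      have hgl := hg0 l
      have h2 := sum_inv_sqrt_le (l + 1)
      push_cast at h2
      calc 200 * (g l / Real.sqrt ((l : ℝ) + 1)) * ∑ k ∈ range (l + 1), 1 / Real.sqrt ((k : ℝ) + 1)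
          ≤ 200 * (g l / Real.sqrt ((l : ℝ) + 1)) * (2 * Real.sqrt ((l : ℝ) + 1)) := by
            apply mul_le_mul_of_nonneg_left h2
            positivity
        _ = 400 * g l := by
            field_simp
            ring
    refine (Finset.sum_le_sum h1).trans ?_
    rw [← Finset.mul_sum, hg, Finset.sum_add_distrib, ← hT']
    have h3 : ∑ l ∈ range N, n / 2 ^ l ≤ 2 * n := by
      have h4 : ∀ N : ℕ, ∑ l ∈ range N, n / 2 ^ l = 2 * n - 2 * n / 2 ^ N := by
        intro N
        induction N with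
        | zero => simp
        | succ N ih =>
          rw [Finset.sum_range_succ, ih, pow_succ]
          field_simp
          ring
      rw [h4]
      have : 0 ≤ 2 * n / 2 ^ N := by positivity
      linarith
    linarith
  have hQle : ∑ a ∈ A, (∑ k ∈ range N, EE A k a) ^ 2 ≤ 3200 * T + 1600 * n := by
    rw [hQ]
    refine hhalf.trans ?_
    have h1 : ∑ l ∈ range N, ∑ k ∈ range (l + 1), P k l ≤ 1200 * T + 400 * (T + 2 * n) := by
      calc ∑ l ∈ range N, ∑ k ∈ range (l + 1), P k l
          ≤ ∑ l ∈ range N, ∑ k ∈ range (l + 1),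
            (400 * (e k * Real.sqrt ((k : ℝ) + 1)) *
              (1 / (((l : ℝ) + 1) * Real.sqrt ((l : ℝ) + 1)))
            + 200 * (g l / Real.sqrt ((l : ℝ) + 1)) * (1 / Real.sqrt ((k : ℝ) + 1))) :=
            Finset.sum_le_sum fun l _ => Finset.sum_le_sum fun k hk => hpair l k hk
        _ ≤ 1200 * T + 400 * (T + 2 * n) := by
            simp only [Finset.sum_add_distrib]
            exact add_le_add hsum1 hsum2
    linarith
  have hCS : T ^ 2 ≤ n * (3200 * T + 1600 * n) := by
    have h1 : T ^ 2 ≤ n * ∑ a ∈ A, (∑ k ∈ range N, EE A k a) ^ 2 := sq_sum_le_card_mul_sum_sq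
    exact h1.trans (mul_le_mul_of_nonneg_left hQle hn0)
  by_contra hcon
  push Not at hcon
  nlinarith

/-- The reciprocal difference sum over a finite set of primes. -/
theorem reciprocal_sum_le {A : Finset ℕ} (hA : ∀ p ∈ A, p.Prime) :
    ∑ p ∈ A, ∑ q ∈ A.filter (fun q => p < q), (1 : ℝ) / ((q : ℝ) - (p : ℝ)) ≤
      6402 * A.card := by
  classical
  set N := A.sup id + 1 with hN
  have hmax : ∀ q ∈ A, q < 2 ^ N := by
    intro q hq
    have h1 : q ≤ A.sup id := Finset.le_sup (f := id) hq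
    have h2 : A.sup id < 2 ^ (A.sup id) := Nat.lt_two_pow_self
    have h3 : 2 ^ (A.sup id) ≤ 2 ^ N := Nat.pow_le_pow_right (by norm_num) (by omega)
    omega
  have key : ∀ p ∈ A, ∑ q ∈ A.filter (fun q => p < q), (1 : ℝ) / ((q : ℝ) - (p : ℝ)) ≤
      2 * ∑ k ∈ range (N + 1), EE A k p := by
    intro p _
    -- pointwise bound for each q
    have h1 : ∀ q ∈ A.filter (fun q => p < q), (1 : ℝ) / ((q : ℝ) - (p : ℝ)) ≤
        2 * ∑ k ∈ range (N + 1), (if q ≠ p ∧ rel k p q then (1 : ℝ) / 2 ^ k else 0) := by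
      intro q hq
      rw [mem_filter] at hq
      obtain ⟨hqA, hpq⟩ := hq
      have hex : ∃ k, q - p ≤ 2 ^ k := ⟨N, by have := hmax q hqA; omega⟩
      set k0 := Nat.find hex with hk0
      have hk0spec : q - p ≤ 2 ^ k0 := Nat.find_spec hex
      have hk0N : k0 ≤ N := Nat.find_min' hex (by have := hmax q hqA; omega)
      have hlow : (2 : ℝ) ^ k0 ≤ 2 * ((q : ℝ) - p) := by
        have hcast : ((q - p : ℕ) : ℝ) = (q : ℝ) - p := by
          rw [Nat.cast_sub hpq.le]
        rcases Nat.eq_zero_or_pos k0 with h0 | h0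
        · rw [h0, pow_zero]
          have : (1 : ℝ) ≤ ((q - p : ℕ) : ℝ) := by
            have : 1 ≤ q - p := by omega
            exact_mod_cast this
          rw [hcast] at this
          linarith
        · have hmin : ¬ (q - p ≤ 2 ^ (k0 - 1)) := Nat.find_min hex (by omega)
          have h2 : (2 : ℝ) ^ (k0 - 1) < ((q - p : ℕ) : ℝ) := by
            have : 2 ^ (k0 - 1) < q - p := by omega
            exact_mod_cast this
          rw [hcast] at h2
          have h3 : (2 : ℝ) ^ k0 = 2 * 2 ^ (k0 - 1) := by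
            rw [← pow_succ']
            congr 1
            omega
          rw [h3]
          linarith
      have hpos : (0 : ℝ) < (q : ℝ) - p := by
        have : (p : ℝ) < q := by exact_mod_cast hpq
        linarith
      have h4 : (1 : ℝ) / ((q : ℝ) - p) ≤ 2 * (1 / 2 ^ k0) := by
        rw [mul_one_div, div_le_div_iff₀ hpos (by positivity)]
        linarith
      refine h4.trans ?_
      have h5 : (1 : ℝ) / 2 ^ k0 ≤
          ∑ k ∈ range (N + 1), (if q ≠ p ∧ rel k p q then (1 : ℝ) / 2 ^ k else 0) := by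
        have h6 := Finset.single_le_sum
          (f := fun k => if q ≠ p ∧ rel k p q then (1 : ℝ) / 2 ^ k else 0)
          (s := range (N + 1)) (fun k _ => by split_ifs <;> positivity)
          (mem_range.2 (Nat.lt_succ_of_le hk0N))
        have h7 : q ≠ p ∧ rel k0 p q := by
          refine ⟨by omega, ?_, ?_⟩ <;> omega
        have h8 : (if q ≠ p ∧ rel k0 p q then (1 : ℝ) / 2 ^ k0 else 0) ≤
          ∑ k ∈ range (N + 1), (if q ≠ p ∧ rel k p q then (1 : ℝ) / 2 ^ k else 0) := h6
        rwa [if_pos h7] at h8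
      linarith
    refine (Finset.sum_le_sum h1).trans ?_
    rw [← Finset.mul_sum, Finset.sum_comm]
    apply mul_le_mul_of_nonneg_left _ (by norm_num)
    apply Finset.sum_le_sum
    intro k _
    rw [← Finset.sum_filter, Finset.sum_const, nsmul_eq_mul, mul_one_div, EE]
    apply div_le_div_of_nonneg_right _ (by positivity)
    have : (filter (fun q => q ≠ p ∧ rel k p q) (filter (fun q => p < q) A)).card ≤ cc A k p := by
      apply Finset.card_le_card
      apply Finset.filter_subset_filter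
      exact Finset.filter_subset _ _
    exact_mod_cast this
  calc ∑ p ∈ A, ∑ q ∈ A.filter (fun q => p < q), (1 : ℝ) / ((q : ℝ) - (p : ℝ))
      ≤ ∑ p ∈ A, 2 * ∑ k ∈ range (N + 1), EE A k p := Finset.sum_le_sum key
    _ = 2 * ∑ p ∈ A, ∑ k ∈ range (N + 1), EE A k p := by rw [Finset.mul_sum]
    _ ≤ 2 * (3201 * A.card) := by
        have := total_energy_le hA (N + 1)
        linarith
    _ = 6402 * A.card := by ring

end

end Pool.Agent.Lib_helper92
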